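import Pool.Agent.H152.ESS.Count

/-! Assembling the stability bound. -/

set_option autoImplicit false

namespace Pool.Agent.H152.ESS

open Finset ES903

section closed

variable {V : Type*} [DecidableEq V] [Fintype V] {W : Type*}
variable (G : SimpleGraph V) [DecidableRel G.Adj]

theorem closed_bound (t : RT W) (U : Finset V) (hU : ∀ u v, G.Adj u v → (u ∈ U ↔ v ∈ U))
    (hno : ∀ u, ¬ t.Emb G u univ) :
    ∑ u ∈ U, (G.degree u : ℚ) ≤ ((t.size : ℚ) - 1) * U.card := by
  have h := bound2 G t U U hU hno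
  have h1 : ((side t).1 : ℚ) + (side t).2 = t.size + 1 := by exact_mod_cast side_sum t
  have h2 : (((side t).2 : ℚ) - 1) * U.card + (((side t).1 : ℚ) - 1) * U.card =
      ((t.size : ℚ) - 1) * U.card := by
    have : ((side t).2 : ℚ) = t.size + 1 - (side t).1 := by linarith
    rw [this]; ring
  linarith

theorem Gd_deg {u w : V} (h : Gd G u) (huw : G.Adj u w) : G.degree w = G.degree u := by
  have : insert w (G.neighborFinset w) = insert u (G.neighborFinset u) := by
    ext z
    rw [Finset.mem_insert, Finset.mem_insert, SimpleGraph.mem_neighborFinset,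
      SimpleGraph.mem_neighborFinset, eq_comm, @eq_comm _ z u]
    exact h w huw z
  have := congrArg Finset.card this
  rw [Finset.card_insert_of_notMem (by simp), Finset.card_insert_of_notMem (by simp),
      SimpleGraph.card_neighborFinset_eq_degree, SimpleGraph.card_neighborFinset_eq_degree] at this
  omega

omit [DecidableEq V] [Fintype V] [DecidableRel G.Adj] in
theorem Gd_adj {u w : V} (h : Gd G u) (huw : G.Adj u w) : Gd G w := by
  intro x hwx y
  have h1 := h w huw
  rcases (h1 x).1 (Or.inr hwx) with h2 | h2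
  · subst h2
    exact (h1 y).symm
  · exact (h x h2 y).trans (h1 y).symm

/-- a closed component has at most `k` vertices -/
theorem Gd_le (t : RT W) (hno : ∀ u, ¬ t.Emb G u univ) {u : V} (h : Gd G u) :
    G.degree u + 1 ≤ t.size := by
  have hU : ∀ x y, G.Adj x y → (x ∈ insert u (G.neighborFinset u) ↔
      y ∈ insert u (G.neighborFinset u)) := by
    intro x y hxy
    simp only [Finset.mem_insert, SimpleGraph.mem_neighborFinset]
    have key : ∀ a b, G.Adj a b → (a = u ∨ G.Adj u a) → (b = u ∨ G.Adj u b) := by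
      intro a b hab ha
      rcases ha with rfl | ha
      · exact Or.inr hab
      · rcases (h a ha b).1 (Or.inr hab) with h' | h'
        · exact Or.inl h'.symm
        · exact Or.inr h'
    exact ⟨key x y hxy, key y x hxy.symm⟩
  have h1 := closed_bound G t _ hU hno
  have h2 : ∑ x ∈ insert u (G.neighborFinset u), (G.degree x : ℚ) =
      ∑ x ∈ insert u (G.neighborFinset u), (G.degree u : ℚ) := by
    apply Finset.sum_congr rfl
    intro x hx
    rw [Finset.mem_insert, SimpleGraph.mem_neighborFinset] at hx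
    rcases hx with rfl | hx
    · rfl
    · rw [Gd_deg G h hx]
  rw [h2, Finset.sum_const, nsmul_eq_mul] at h1
  have h3 : (0:ℚ) < ((insert u (G.neighborFinset u)).card : ℚ) := by
    exact_mod_cast Finset.card_pos.2 ⟨u, Finset.mem_insert_self _ _⟩
  have h4 : (G.degree u : ℚ) ≤ (t.size : ℚ) - 1 := by nlinarith
  have h5 : ((G.degree u + 1 : ℕ) : ℚ) ≤ (t.size : ℚ) := by push_cast; linarith
  exact_mod_cast h5

/-- removing a set of vertices -/
theorem remove (t : RT W)
    (hno' : ∀ (G' : SimpleGraph V), G' ≤ G → ∀ u, ¬ t.Emb G' u univ) (L : Finset V) :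
    ∑ u, (G.degree u : ℚ) ≤ 2 * ∑ u ∈ L, (G.degree u : ℚ) +
      ((t.size : ℚ) - 1) * ((Fintype.card V : ℚ) - L.card) := by
  classical
  let G' : SimpleGraph V :=
    { Adj := fun a b => G.Adj a b ∧ a ∉ L ∧ b ∉ L
      symm := ⟨fun a b h => ⟨h.1.symm, h.2.2, h.2.1⟩⟩
      loopless := ⟨fun a h => h.1.ne rfl⟩ }
  have hG'adj : ∀ a b, G'.Adj a b ↔ (G.Adj a b ∧ a ∉ L ∧ b ∉ L) := fun a b => Iff.rfl
  have hle : G' ≤ G := fun a b h => h.1
  have h1 := closed_bound G' t (univ \ L) (by
    intro u v h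
    rw [hG'adj] at h
    simp [h.2.1, h.2.2]) (hno' G' hle)
  have h2 : ∀ u ∈ univ \ L, (G.degree u : ℚ) ≤ (G'.degree u : ℚ) +
      ((G.neighborFinset u ∩ L).card : ℚ) := by
    intro u hu
    have huL : u ∉ L := (Finset.mem_sdiff.1 hu).2
    have h3 : G.neighborFinset u ⊆ G'.neighborFinset u ∪ (G.neighborFinset u ∩ L) := by
      intro v hv
      rw [Finset.mem_union, Finset.mem_inter]
      by_cases hvL : v ∈ L
      · exact Or.inr ⟨hv, hvL⟩
      · left
        rw [SimpleGraph.mem_neighborFinset, hG'adj]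
        exact ⟨by simpa using hv, huL, hvL⟩
    have h4 := (Finset.card_le_card h3).trans (Finset.card_union_le _ _)
    rw [SimpleGraph.card_neighborFinset_eq_degree, SimpleGraph.card_neighborFinset_eq_degree] at h4
    exact_mod_cast h4
  have h5 : ∑ u ∈ univ \ L, ((G.neighborFinset u ∩ L).card : ℚ) ≤ ∑ u ∈ L, (G.degree u : ℚ) := by
    have e1 : ∀ u : V, ((G.neighborFinset u ∩ L).card : ℚ) =
        ∑ v ∈ L, (if G.Adj u v then (1:ℚ) else 0) := by
      intro u
      rw [Finset.sum_ite, Finset.sum_const, Finset.sum_const_zero, add_zero, nsmul_eq_mul, mul_one]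
      congr 2
      ext v
      simp [Finset.mem_inter, and_comm]
    have e2 : ∀ v : V, (G.degree v : ℚ) = ∑ u, (if G.Adj u v then (1:ℚ) else 0) := by
      intro v
      rw [Finset.sum_ite, Finset.sum_const, Finset.sum_const_zero, add_zero, nsmul_eq_mul, mul_one,
        ← SimpleGraph.card_neighborFinset_eq_degree]
      congr 2
      ext u
      simp [SimpleGraph.adj_comm]
    rw [Finset.sum_congr rfl (fun u _ => e1 u), Finset.sum_congr rfl (fun v (_ : v ∈ L) => e2 v),
      Finset.sum_comm]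
    apply Finset.sum_le_sum
    intro v _
    apply Finset.sum_le_sum_of_subset_of_nonneg (Finset.subset_univ _)
    intro u _ _
    split_ifs <;> norm_num
  have h6 := Finset.sum_le_sum h2
  rw [Finset.sum_add_distrib] at h6
  have h7 : ∑ u, (G.degree u : ℚ) = ∑ u ∈ univ \ L, (G.degree u : ℚ) +
      ∑ u ∈ L, (G.degree u : ℚ) := (Finset.sum_sdiff (Finset.subset_univ _)).symm
  have h8 : ((univ \ L).card : ℚ) = (Fintype.card V : ℚ) - L.card := by
    rw [Finset.card_sdiff_of_subset (Finset.subset_univ _), Finset.card_univ,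
      Nat.cast_sub (Finset.card_le_univ _)]
  rw [h8] at h1
  linarith

/-- a set all of whose neighbours are in `R` -/
theorem bip (t : RT W) (hno' : ∀ (G' : SimpleGraph V), G' ≤ G → ∀ u, ¬ t.Emb G' u univ)
    (L R : Finset V) (hLR : Disjoint L R) (hL : ∀ u ∈ L, ∀ v, G.Adj u v → v ∈ R) :
    ∑ u ∈ L, (G.degree u : ℚ) ≤
        (((side t).2 : ℚ) - 1) * L.card + (((side t).1 : ℚ) - 1) * R.card ∧
    ∑ u ∈ L, (G.degree u : ℚ) ≤
        (((side t).1 : ℚ) - 1) * L.card + (((side t).2 : ℚ) - 1) * R.card := by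
  classical
  let G' : SimpleGraph V :=
    { Adj := fun a b => G.Adj a b ∧ ((a ∈ L ∧ b ∈ R) ∨ (a ∈ R ∧ b ∈ L))
      symm := ⟨fun a b h => ⟨h.1.symm, h.2.symm.imp (fun h => ⟨h.2, h.1⟩) (fun h => ⟨h.2, h.1⟩)⟩⟩
      loopless := ⟨fun a h => h.1.ne rfl⟩ }
  have hG'adj : ∀ a b, G'.Adj a b ↔ (G.Adj a b ∧ ((a ∈ L ∧ b ∈ R) ∨ (a ∈ R ∧ b ∈ L))) :=
    fun a b => Iff.rfl
  have hle : G' ≤ G := fun a b h => h.1
  have hd : ∀ u ∈ L, G'.degree u = G.degree u := by
    intro u hu
    rw [← SimpleGraph.card_neighborFinset_eq_degree, ← SimpleGraph.card_neighborFinset_eq_degree]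
    congr 1
    ext v
    rw [SimpleGraph.mem_neighborFinset, SimpleGraph.mem_neighborFinset, hG'adj]
    exact ⟨fun h => h.1, fun h => ⟨h, Or.inl ⟨hu, hL u hu v h⟩⟩⟩
  have key : ∀ u v, G'.Adj u v → (u ∈ L ↔ v ∈ R) := by
    intro u v h
    rw [hG'adj] at h
    rcases h.2 with h' | h'
    · simp [h'.1, h'.2]
    · have h1 : u ∉ L := fun h => (Finset.disjoint_left.1 hLR) h h'.1
      have h2 : v ∉ R := fun h => (Finset.disjoint_left.1 hLR) h'.2 h
      simp [h1, h2]
  have key2 : ∀ u v, G'.Adj u v → (u ∈ R ↔ v ∈ L) := fun u v h => (key v u h.symm).symm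
  have b1 := bound2 G' t L R key (hno' G' hle)
  have b2 := bound2 G' t R L key2 (hno' G' hle)
  have e1 : ∑ u ∈ L, (G'.degree u : ℚ) = ∑ u ∈ L, (G.degree u : ℚ) :=
    Finset.sum_congr rfl (fun u hu => by rw [hd u hu])
  have e2 : ∑ u ∈ R, (G'.degree u : ℚ) = ∑ u ∈ L, (G'.degree u : ℚ) := by
    have e3 : ∀ (U : Finset V), ∑ u ∈ U, (G'.degree u : ℚ) =
        ∑ u ∈ U, ∑ v ∈ G'.neighborFinset u, (1:ℚ) := by
      intro U
      apply Finset.sum_congr rfl
      intro u _
      rw [Finset.sum_const, nsmul_eq_mul, mul_one, SimpleGraph.card_neighborFinset_eq_degree]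
    rw [e3, e3]
    apply Finset.sum_comm'
    intro x y
    rw [SimpleGraph.mem_neighborFinset, SimpleGraph.mem_neighborFinset]
    constructor
    · rintro ⟨h1, h2⟩
      exact ⟨h2.symm, (key2 x y h2).1 h1⟩
    · rintro ⟨h1, h2⟩
      exact ⟨(key2 x y h1.symm).2 h2, h1.symm⟩
  constructor
  · linarith
  · linarith

end closed

end Pool.Agent.H152.ESS
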