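import Pool.Graph.R_seed8.Helper903.ES.Main

/-! Lower bounds for the averages `E` of events, and the planting step with its slack terms. -/

set_option autoImplicit false

namespace Pool.Agent.H152.ESS

open Finset ES903

section avg

variable {V : Type*} [DecidableEq V]

theorem E_insert_indep (R : Finset V) (x : V) (hx : x ∉ R) (φ : Finset V → ℚ)
    (hφ : ∀ S, S ⊆ R → φ (insert x S) = φ S) :
    E (insert x R) φ = (((R.card : ℚ) + 2) / ((R.card : ℚ) + 1)) * E R φ := by
  unfold E
  rw [Finset.sum_powerset_insert hx, ← Finset.sum_add_distrib, Finset.mul_sum]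
  apply Finset.sum_congr rfl
  intro S hS
  have hS' := Finset.mem_powerset.1 hS
  have hxS : x ∉ S := fun h => hx (hS' h)
  rw [hφ S hS', Finset.card_insert_of_notMem hx, Finset.card_insert_of_notMem hxS]
  have hle : S.card ≤ R.card := Finset.card_le_card hS'
  obtain ⟨m, hm⟩ : ∃ m, R.card = S.card + m := ⟨R.card - S.card, by omega⟩
  have h1 := Nat.add_one_mul_choose_eq R.card S.card
  have h2 := Nat.choose_mul_succ_eq R.card S.card
  have h3 : R.card + 1 - S.card = m + 1 := by omega
  rw [h3] at h2
  have p0 : 0 < R.card.choose S.card := Nat.choose_pos hle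
  have p1 : 0 < (R.card + 1).choose S.card := Nat.choose_pos (by omega)
  have p2 : 0 < (R.card + 1).choose (S.card + 1) := Nat.choose_pos (by omega)
  have q0 : (0:ℚ) < (R.card.choose S.card : ℚ) := by exact_mod_cast p0
  have q1 : (0:ℚ) < ((R.card + 1).choose S.card : ℚ) := by exact_mod_cast p1
  have q2 : (0:ℚ) < ((R.card + 1).choose (S.card + 1) : ℚ) := by exact_mod_cast p2
  have e1 : ((R.card : ℚ) + 1) * (R.card.choose S.card : ℚ) =
      ((R.card + 1).choose (S.card + 1) : ℚ) * ((S.card : ℚ) + 1) := by exact_mod_cast h1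
  have e2 : (R.card.choose S.card : ℚ) * ((R.card : ℚ) + 1) =
      ((R.card + 1).choose S.card : ℚ) * ((m : ℚ) + 1) := by exact_mod_cast h2
  have hR : (R.card : ℚ) = S.card + m := by rw [hm]; push_cast; ring
  have hRp : (0:ℚ) < (R.card : ℚ) + 1 := by positivity
  have k1 : φ S / ((R.card + 1).choose S.card : ℚ) =
      φ S * ((m:ℚ) + 1) / (((R.card : ℚ) + 1) * (R.card.choose S.card : ℚ)) := by
    rw [div_eq_div_iff q1.ne' (by positivity)]
    linear_combination (φ S) * e2
  have k2 : φ S / ((R.card + 1).choose (S.card + 1) : ℚ) =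
      φ S * ((S.card:ℚ) + 1) / (((R.card : ℚ) + 1) * (R.card.choose S.card : ℚ)) := by
    rw [div_eq_div_iff q2.ne' (by positivity)]
    linear_combination (φ S) * e1
  rw [k1, k2]
  field_simp
  rw [hR]
  ring

theorem E_event (A C : Finset V) (hd : Disjoint A C) (D : Finset V) (hD : Disjoint D (A ∪ C)) :
    E (D ∪ (A ∪ C)) (fun S => if A ⊆ S ∧ Disjoint C S then (1:ℚ) else 0) =
      (((D ∪ (A ∪ C)).card : ℚ) + 1) /
        (((A.card : ℚ) + C.card + 1) * ((A.card + C.card).choose A.card : ℚ)) := by
  classical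
  induction D using Finset.induction_on with
  | empty =>
    rw [Finset.empty_union]
    have hc : (A ∪ C).card = A.card + C.card := Finset.card_union_of_disjoint hd
    have : E (A ∪ C) (fun S => if A ⊆ S ∧ Disjoint C S then (1:ℚ) else 0) =
        1 / ((A.card + C.card).choose A.card : ℚ) := by
      unfold E
      rw [Finset.sum_eq_single A]
      · beta_reduce
        rw [if_pos ⟨Finset.Subset.refl _, hd.symm⟩, hc]
      · intro S hS hne
        beta_reduce
        rw [if_neg, zero_div]
        rintro ⟨h1, h2⟩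
        apply hne
        apply Finset.Subset.antisymm _ h1
        intro x hx
        rcases Finset.mem_union.1 (Finset.mem_powerset.1 hS hx) with h | h
        · exact h
        · exact absurd hx (Finset.disjoint_left.1 h2 h)
      · intro h
        exact absurd (Finset.mem_powerset.2 Finset.subset_union_left) h
    rw [this, hc]
    have p0 : 0 < (A.card + C.card).choose A.card := Nat.choose_pos (by omega)
    have q0 : (0:ℚ) < ((A.card + C.card).choose A.card : ℚ) := by exact_mod_cast p0
    have q1 : (0:ℚ) < (A.card : ℚ) + C.card + 1 := by positivity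
    push_cast
    field_simp
  | insert x D hx ih =>
    have hD' : Disjoint D (A ∪ C) := Finset.disjoint_of_subset_left (Finset.subset_insert _ _) hD
    have hxA : x ∉ A ∪ C := Finset.disjoint_left.1 hD (Finset.mem_insert_self _ _)
    have hxn : x ∉ D ∪ (A ∪ C) := by
      rw [Finset.mem_union]
      rintro (h | h)
      · exact hx h
      · exact hxA h
    rw [Finset.insert_union, E_insert_indep _ x hxn, ih hD', Finset.card_insert_of_notMem hxn]
    · have q2 : (0:ℚ) < ((D ∪ (A ∪ C)).card : ℚ) + 1 := by positivity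
      push_cast
      field_simp
      ring
    · intro S _
      have hxA' : x ∉ A := fun h => hxA (Finset.mem_union_left _ h)
      have hxC : x ∉ C := fun h => hxA (Finset.mem_union_right _ h)
      have e1 : A ⊆ insert x S ↔ A ⊆ S := by
        constructor
        · intro h y hy
          rcases Finset.mem_insert.1 (h hy) with h' | h'
          · exact absurd (h' ▸ hy) hxA'
          · exact h'
        · intro h
          exact h.trans (Finset.subset_insert _ _)
      have e2 : Disjoint C (insert x S) ↔ Disjoint C S := by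
        rw [Finset.disjoint_insert_right]
        exact ⟨fun h => h.2, fun h => ⟨hxC, h⟩⟩
      simp only [e1, e2]

/-- the universal lower bound for the probability of local events -/
def kap (M : ℕ) : ℚ := 1 / (((M : ℚ) + 1) * 2 ^ M)

theorem kap_pos (M : ℕ) : 0 < kap M := by unfold kap; positivity

theorem kap_anti {m M : ℕ} (h : m ≤ M) : kap M ≤ kap m := by
  unfold kap
  have h1 : (m : ℚ) ≤ M := by exact_mod_cast h
  have h2 : (2:ℚ) ^ m ≤ 2 ^ M := pow_le_pow_right₀ (by norm_num) h
  have h3 : (0:ℚ) < 2 ^ m := by positivity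
  apply one_div_le_one_div_of_le (by positivity)
  gcongr

theorem E_ge [Fintype V] (M : ℕ) (A C : Finset V) (hd : Disjoint A C)
    (hM : A.card + C.card ≤ M) (φ : Finset V → ℚ) (h0 : ∀ S, 0 ≤ φ S)
    (h1 : ∀ S, A ⊆ S → Disjoint C S → 1 ≤ φ S) :
    ((Fintype.card V : ℚ) + 1) * kap M ≤ E univ φ := by
  classical
  have h2 : E univ (fun S => if A ⊆ S ∧ Disjoint C S then (1:ℚ) else 0) ≤ E univ φ := by
    apply E_mono
    intro S _
    split_ifs with h
    · exact h1 S h.1 h.2
    · exact h0 S
  refine le_trans ?_ h2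
  have h3 : (univ \ (A ∪ C)) ∪ (A ∪ C) = univ := Finset.sdiff_union_of_subset (Finset.subset_univ _)
  have h4 := E_event A C hd (univ \ (A ∪ C)) Finset.sdiff_disjoint
  rw [h3] at h4
  rw [h4, Finset.card_univ, div_eq_mul_one_div]
  have hn : (0:ℚ) ≤ (Fintype.card V : ℚ) + 1 := by positivity
  apply mul_le_mul_of_nonneg_left _ hn
  refine (kap_anti hM).trans ?_
  unfold kap
  have p0 : 0 < (A.card + C.card).choose A.card := Nat.choose_pos (by omega)
  have q0 : (0:ℚ) < ((A.card + C.card).choose A.card : ℚ) := by exact_mod_cast p0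
  have p1 : ((A.card + C.card).choose A.card : ℚ) ≤ 2 ^ (A.card + C.card) := by
    exact_mod_cast Nat.choose_le_two_pow _ _
  apply one_div_le_one_div_of_le (by positivity)
  push_cast
  gcongr

end avg

section plant

variable {V : Type*} [DecidableEq V] [Fintype V]

/-- loss at the parent -/
noncomputable def LU (G : SimpleGraph V) [DecidableRel G.Adj] (q : V → Finset V → Prop)
    (u : V) : ℚ :=
  ∑ x ∈ univ \ G.neighborFinset u, (E univ (Fail (q u)) -
    E univ (fun S => Fail (q u) (insert x S)))

/-- loss at an arc -/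
noncomputable def LA (p q : V → Finset V → Prop) (u v : V) : ℚ :=
  E univ (fun S => Fail (p v) (S.erase u)) - E univ (fun S => Fail (q u) (insert v S))

theorem LU_term_nonneg (q : V → Finset V → Prop) (hq : ∀ v S T, S ⊆ T → q v S → q v T)
    (u x : V) :
    0 ≤ E univ (Fail (q u)) - E univ (fun S => Fail (q u) (insert x S)) := by
  have : E univ (fun S => Fail (q u) (insert x S)) ≤ E univ (Fail (q u)) := by
    apply E_mono
    intro S _
    apply Fail_mono
    exact hq u S _ (Finset.subset_insert _ _)
  linarith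

theorem LU_nonneg (G : SimpleGraph V) [DecidableRel G.Adj] (q : V → Finset V → Prop)
    (hq : ∀ v S T, S ⊆ T → q v S → q v T) (u : V) : 0 ≤ LU G q u :=
  Finset.sum_nonneg (fun x _ => LU_term_nonneg q hq u x)

theorem LA_nonneg (p q : V → Finset V → Prop) (u v : V)
    (h : ∀ S, p v (S.erase u) → q u (insert v S)) : 0 ≤ LA p q u v := by
  unfold LA
  have : E univ (fun S => Fail (q u) (insert v S)) ≤
      E univ (fun S => Fail (p v) (S.erase u)) := by
    apply E_mono
    intro S _
    apply Fail_mono
    exact h S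
  linarith

/-- planting with slack, parents in `X`, children in `Y` -/
theorem plant_slack (G : SimpleGraph V) [DecidableRel G.Adj] (X Y : Finset V)
    (hXY : ∀ u v, G.Adj u v → (u ∈ X ↔ v ∈ Y))
    (p q : V → Finset V → Prop)
    (hp : ∀ v S T, S ⊆ T → p v S → p v T) :
    ∑ u ∈ X, ((G.degree u : ℚ) + 1) * E univ (Fail (q u)) + ∑ u ∈ X, LU G q u +
      ∑ u ∈ X, ∑ v ∈ G.neighborFinset u, LA p q u v ≤
      ∑ v ∈ Y, ((G.degree v : ℚ) + 1) * E univ (Fail (p v)) +
        (X.card : ℚ) * ((Fintype.card V : ℚ) + 1) := by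
  have harc : ∑ u ∈ X, ∑ v ∈ G.neighborFinset u, E univ (fun S => Fail (p v) (S.erase u)) =
      ∑ v ∈ Y, ∑ u ∈ G.neighborFinset v, E univ (fun S => Fail (p v) (S.erase u)) := by
    apply Finset.sum_comm'
    intro u v
    rw [SimpleGraph.mem_neighborFinset, SimpleGraph.mem_neighborFinset]
    constructor
    · rintro ⟨h1, h2⟩
      exact ⟨h2.symm, (hXY u v h2).1 h1⟩
    · rintro ⟨h1, h2⟩
      exact ⟨(hXY u v h1.symm).2 h2, h1.symm⟩
  have hL : ∀ u ∈ X, ((G.degree u : ℚ) + 1) * E univ (Fail (q u)) + LU G q u ≤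
      ((Fintype.card V : ℚ) + 1) +
      ∑ v ∈ G.neighborFinset u, E univ (fun S => Fail (q u) (insert v S)) := by
    intro u _
    have e1 := E_up (univ : Finset V) (Fail (q u))
    have e2 : ∑ v ∈ (univ : Finset V), (E univ (Fail (q u)) -
          E univ (fun S => Fail (q u) (insert v S))) =
        LU G q u + ∑ v ∈ G.neighborFinset u, (E univ (Fail (q u)) -
          E univ (fun S => Fail (q u) (insert v S))) := by
      unfold LU
      rw [Finset.sum_sdiff (Finset.subset_univ _)]
    rw [e1, Finset.sum_sub_distrib, Finset.sum_const, SimpleGraph.card_neighborFinset_eq_degree,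
      nsmul_eq_mul, Finset.card_univ] at e2
    have e3 := Fail_le_one (q u) ∅
    have e4 : (0:ℚ) ≤ (Fintype.card V : ℚ) + 1 := by positivity
    nlinarith
  have hR : ∀ v ∈ Y, ∑ u ∈ G.neighborFinset v, E univ (fun S => Fail (p v) (S.erase u)) ≤
      ((G.degree v : ℚ) + 1) * E univ (Fail (p v)) := by
    intro v _
    have e1 := E_down (univ : Finset V) (Fail (p v))
    have e2 : ∑ u ∈ G.neighborFinset v, (E univ (fun S => Fail (p v) (S.erase u)) -
        E univ (Fail (p v))) ≤
        ∑ u ∈ (univ : Finset V), (E univ (fun S => Fail (p v) (S.erase u)) -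
        E univ (Fail (p v))) := by
      apply Finset.sum_le_sum_of_subset_of_nonneg (Finset.subset_univ _)
      intro x _ _
      have : E univ (Fail (p v)) ≤ E univ (fun S => Fail (p v) (S.erase x)) := by
        apply E_mono
        intro S _
        apply Fail_mono
        exact hp v _ _ (Finset.erase_subset _ _)
      linarith
    rw [e1, Finset.sum_sub_distrib, Finset.sum_const, SimpleGraph.card_neighborFinset_eq_degree,
      nsmul_eq_mul, Finset.card_univ] at e2
    have e3 := Fail_nonneg (p v) univ
    have e4 : (0:ℚ) ≤ (Fintype.card V : ℚ) + 1 := by positivity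
    nlinarith [mul_nonneg e4 e3]
  have s1 := Finset.sum_le_sum hL
  have s2 := Finset.sum_le_sum hR
  have s3 : ∑ u ∈ X, ∑ v ∈ G.neighborFinset u, LA p q u v =
      ∑ u ∈ X, ∑ v ∈ G.neighborFinset u, E univ (fun S => Fail (p v) (S.erase u)) -
      ∑ u ∈ X, ∑ v ∈ G.neighborFinset u, E univ (fun S => Fail (q u) (insert v S)) := by
    rw [← Finset.sum_sub_distrib]
    apply Finset.sum_congr rfl
    intro u _
    rw [← Finset.sum_sub_distrib]
    rfl
  rw [Finset.sum_add_distrib, Finset.sum_add_distrib, Finset.sum_const, nsmul_eq_mul] at s1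
  rw [s3, harc]
  linarith

end plant

end Pool.Agent.H152.ESS
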