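import Pool.Agent.H152.ESS.Basic

/-! The averaging bound with prescribed sides. -/

set_option autoImplicit false

namespace Pool.Agent.H152.ESS

open Finset ES903

section

variable {V : Type*} [DecidableEq V] [Fintype V] {W : Type*}

/-- numbers of vertices on the side of the root and on the other side -/
def side : RT W → ℕ × ℕ
  | RT.node _ => (1, 0)
  | RT.graft A B => ((side B).1 + (side A).2, (side B).2 + (side A).1)

theorem side_pos (t : RT W) : 1 ≤ (side t).1 := by
  induction t with
  | node w => simp [side]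
  | graft A B _ ihB => simp only [side]; omega

theorem side_sum (t : RT W) : (side t).1 + (side t).2 = t.size + 1 := by
  induction t with
  | node w => simp [side, RT.size]
  | graft A B ihA ihB => simp only [side, RT.size]; omega

theorem plant_hyp (G : SimpleGraph V) (p : V → Finset V → Prop)
    (hp : ∀ v S T, S ⊆ T → p v S → p v T) (u v : V) (S : Finset V) (huv : G.Adj u v)
    (hE : p v (S.erase u)) : RT.Plant G p u (insert v S) :=
  ⟨v, Finset.mem_insert_self _ _, huv,
    hp v _ _ (Finset.erase_subset_erase _ (Finset.subset_insert _ _)) hE⟩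

theorem cost2 (G : SimpleGraph V) [DecidableRel G.Adj] (t : RT W) :
    ∀ (X Y : Finset V), (∀ u v, G.Adj u v → (u ∈ X ↔ v ∈ Y)) →
      ∑ u ∈ X, ((G.degree u : ℚ) + 1) * E univ (Fail (t.Emb G u)) ≤
        (((side t).2 : ℚ) * X.card + (((side t).1 : ℚ) - 1) * Y.card) *
          ((Fintype.card V : ℚ) + 1) := by
  induction t with
  | node w =>
    intro X Y _
    have : ∀ u, E univ (Fail ((RT.node w : RT W).Emb G u)) = 0 := by
      intro u
      simp [E, Fail, RT.Emb]
    simp [this, side]
  | graft A B ihA ihB =>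
    intro X Y hXY
    have hYX : ∀ u v, G.Adj u v → (u ∈ Y ↔ v ∈ X) := fun u v h => (hXY v u h.symm).symm
    have h1 := plant_slack G X Y hXY (A.Emb G) (RT.Plant G (A.Emb G)) (A.Emb_mono G)
    have hqm : ∀ v S T, S ⊆ T → RT.Plant G (A.Emb G) v S → RT.Plant G (A.Emb G) v T :=
      RT.Plant_mono (A.Emb_mono G)
    have h1a : 0 ≤ ∑ u ∈ X, LU G (RT.Plant G (A.Emb G)) u :=
      Finset.sum_nonneg (fun u _ => LU_nonneg G _ hqm u)
    have h1b : 0 ≤ ∑ u ∈ X, ∑ v ∈ G.neighborFinset u, LA (A.Emb G) (RT.Plant G (A.Emb G)) u v := by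
      refine Finset.sum_nonneg (fun u _ => Finset.sum_nonneg (fun v hv => ?_))
      apply LA_nonneg
      intro S hS
      exact plant_hyp G _ (A.Emb_mono G) u v S (by simpa using hv) hS
    have h2 : ∑ u ∈ X, ((G.degree u : ℚ) + 1) * E univ (Fail ((RT.graft A B).Emb G u)) ≤
        ∑ u ∈ X, ((G.degree u : ℚ) + 1) * E univ (Fail (RT.Plant G (A.Emb G) u)) +
        ∑ u ∈ X, ((G.degree u : ℚ) + 1) * E univ (Fail (B.Emb G u)) := by
      rw [← Finset.sum_add_distrib]
      apply Finset.sum_le_sum
      intro u _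
      rw [← mul_add]
      apply mul_le_mul_of_nonneg_left _ (by positivity)
      exact glue univ _ _
    have h3 := ihA Y X hYX
    have h4 := ihB X Y hXY
    have h5 : ((side (RT.graft A B)).1 : ℚ) = (side B).1 + (side A).2 := by simp [side]
    have h6 : ((side (RT.graft A B)).2 : ℚ) = (side B).2 + (side A).1 := by simp [side]
    rw [h5, h6]
    linarith

theorem E_not {t : RT W} {G : SimpleGraph V} {u : V} (h : ¬ t.Emb G u univ) :
    E univ (Fail (t.Emb G u)) = (Fintype.card V : ℚ) + 1 := by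
  have : Fail (t.Emb G u) = fun _ => 1 := by
    funext S
    have : ¬ t.Emb G u S := fun hh => h (t.Emb_mono G u S univ (Finset.subset_univ _) hh)
    simp [Fail, this]
  rw [this, E_one, Finset.card_univ]

/-- degree sum over `X` -/
theorem bound2 (G : SimpleGraph V) [DecidableRel G.Adj] (t : RT W) (X Y : Finset V)
    (hXY : ∀ u v, G.Adj u v → (u ∈ X ↔ v ∈ Y)) (hno : ∀ u, ¬ t.Emb G u univ) :
    ∑ u ∈ X, (G.degree u : ℚ) ≤
      (((side t).2 : ℚ) - 1) * X.card + (((side t).1 : ℚ) - 1) * Y.card := by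
  have h := cost2 G t X Y hXY
  have h1 : ∑ u ∈ X, ((G.degree u : ℚ) + 1) * E univ (Fail (t.Emb G u)) =
      (∑ u ∈ X, ((G.degree u : ℚ) + 1)) * ((Fintype.card V : ℚ) + 1) := by
    rw [Finset.sum_mul]
    exact Finset.sum_congr rfl (fun u _ => by rw [E_not (hno u)])
  rw [h1] at h
  have hn : (0:ℚ) < (Fintype.card V : ℚ) + 1 := by positivity
  have h2 := le_of_mul_le_mul_right h hn
  rw [Finset.sum_add_distrib, Finset.sum_const, nsmul_eq_mul, mul_one] at h2
  linarith

end

end Pool.Agent.H152.ESS
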