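import Pool.Agent.H152.ESS.Tree

/-! The stability inequality with explicit constants. -/

set_option autoImplicit false

namespace Pool.Agent.H152.ESS

open Finset ES903

/-- low degree bound -/
def pF (k N D : ℕ) : ℕ := N * k * (2 * k + 1) + D + k + 1

/-- high degree bound -/
def pF' (k N D : ℕ) : ℕ :=
  N * k * (1 + pF k N D) * (pF k N D * pF k N D + pF k N D + 1) + pF k N D + k + 2

def pM (k N D : ℕ) : ℕ := k + 1 + pF k N D + pF k N D * pF' k N D

noncomputable def pC (k N D : ℕ) : ℚ :=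
  (2 + (pF k N D : ℚ) + (pF' k N D : ℚ)) * (2 / kap (pM k N D)) + 2

theorem pC_pos (k N D : ℕ) : 0 < pC k N D := by
  unfold pC
  have := kap_pos (pM k N D)
  positivity

section core

variable {V : Type*} [DecidableEq V] [Fintype V] {W : Type*}
variable (G : SimpleGraph V) [DecidableRel G.Adj]

/-- the deficiency -/
def Dl (k : ℕ) : ℚ := ((k : ℚ) - 1) * Fintype.card V - ∑ u, (G.degree u : ℚ)

theorem core (c : W) (l : List W) (B : RT W) (k N D : ℕ) (hN : 1 ≤ N)
    (hk : (RT.graft (starRT c l) B).size = k) (hl : 1 ≤ l.length) (hB : 1 ≤ B.size)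
    (hno' : ∀ (G' : SimpleGraph V), G' ≤ G → ∀ u, ¬ (RT.graft (starRT c l) B).Emb G' u univ)
    (S L : Finset V) (hS : S ⊆ univ \ sK G k)
    (hSL : ∀ v ∈ S, v ∈ sL1 G (pF k N D) (pF' k N D) → v ∈ L)
    (hL : (L.card : ℚ) ≤ Dl G k + 2 * (k : ℚ) * ((sB G (pF k N D + 1)).card : ℚ)) :
    (S.card : ℚ) ≤ 2 * (1 / (N : ℚ)) * ((univ \ sK G k).card : ℚ) + pC k N D * Dl G k := by
  classical
  have hno : ∀ u, ¬ (RT.graft (starRT c l) B).Emb G u univ := hno' G le_rfl
  set F := pF k N D with hF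
  set F' := pF' k N D with hF'
  have hsz : l.length + B.size + 1 = k := by
    rw [← hk]; simp only [RT.size, starRT_size]
  have hkF : k ≤ F := by rw [hF]; unfold pF; omega
  have hkF' : F + k + 2 ≤ F' := by rw [hF']; unfold pF'; omega
  -- cover
  have hcov : S ⊆ (((sB G (F + 1) ∪ sX G F F') ∪ L) ∪ sN G F F') ∪ sQ G k := by
    intro v hv
    have h1 := hS hv
    rw [Finset.mem_sdiff] at h1
    have h2 := cover G (RT.graft (starRT c l) B) hno F F' v (by rw [hk]; exact h1.2)
    rw [hk] at h2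
    simp only [Finset.mem_union]
    rcases h2 with h | h | h | h | h
    · exact Or.inl (Or.inl (Or.inl (Or.inl h)))
    · exact Or.inl (Or.inl (Or.inl (Or.inr h)))
    · exact Or.inl (Or.inl (Or.inr (hSL v hv h)))
    · exact Or.inl (Or.inr h)
    · exact Or.inr h
  have hcard : S.card ≤ (sB G (F + 1)).card + (sX G F F').card + L.card + (sN G F F').card +
      (sQ G k).card := by
    have a0 := Finset.card_le_card hcov
    have a1 := Finset.card_union_le (((sB G (F + 1) ∪ sX G F F') ∪ L) ∪ sN G F F') (sQ G k)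
    have a2 := Finset.card_union_le ((sB G (F + 1) ∪ sX G F F') ∪ L) (sN G F F')
    have a3 := Finset.card_union_le (sB G (F + 1) ∪ sX G F F') L
    have a4 := Finset.card_union_le (sB G (F + 1)) (sX G F F')
    omega
  have b1 := card_B G (RT.graft (starRT c l) B) hno (F + 1) (by rw [hk]; omega)
  have b2 := card_B G (RT.graft (starRT c l) B) hno F' (by rw [hk]; omega)
  have b3 := card_X G c l B (pM k N D) F F' hno hl (by omega)
    (by unfold pM; rw [← hF]; omega)
  have b4 := card_N G c l B (pM k N D) F F' hno hl hB (by unfold pM; rw [← hF, ← hF']; omega)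
  have b5 := card_Q G (RT.graft (starRT c l) B) hno
  have b6 := card_Bd G c l B (pM k N D) hno
  rw [hk] at b1 b2 b5
  rw [hsz] at b6
  have b7 : ((k : ℚ)) * Fintype.card V - ∑ u, ((G.degree u : ℚ) + 1) = Dl G k := by
    unfold Dl
    rw [Finset.sum_add_distrib, Finset.sum_const, nsmul_eq_mul, mul_one, Finset.card_univ]
    ring
  rw [b7] at b6
  have hNq : (0:ℚ) < (N : ℚ) := by exact_mod_cast hN
  have hB10 : (0:ℚ) ≤ ((sB G (F + 1)).card : ℚ) := by positivity
  refine arith (S.card : ℚ) ((univ \ sK G k).card : ℚ) ((sB G (F + 1)).card : ℚ)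
    ((sB G F').card : ℚ) ((sX G F F').card : ℚ) ((sN G F F').card : ℚ) ((sQ G k).card : ℚ)
    ((Bd G c l B (pM k N D)).card : ℚ) (L.card : ℚ) (k : ℚ) (F : ℚ) (F' : ℚ)
    ((F : ℚ) * F + F + 1) (1 / (N : ℚ)) (pC k N D) (kap (pM k N D)) (Dl G k)
    ?_ ?_ b2 ?_ ?_ b5 b6 hL ?_ ?_ ?_ ?_ (kap_pos _) (by positivity) (by positivity) (by positivity)
    rfl
  · exact_mod_cast hcard
  · push_cast at b1
    linarith
  · exact_mod_cast b3
  · have : ((sN G F F').card : ℚ) ≤ (Bd G c l B (pM k N D)).card +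
        (Bd G c l B (pM k N D)).card * F' + (sX G F F').card * F := by exact_mod_cast b4
    exact this
  · rw [div_mul_eq_mul_div, one_mul, le_div_iff₀ hNq]
    have : (2 * k + 1) * k * N ≤ F := by rw [hF]; unfold pF; nlinarith
    exact_mod_cast this
  · rw [div_mul_eq_mul_div, one_mul, le_div_iff₀ hNq]
    have : (1 + F) * (F * F + F + 1) * k * N ≤ F' := by
      rw [hF']; unfold pF'; rw [← hF]; nlinarith
    exact_mod_cast this
  · have : 0 < F := by rw [hF]; unfold pF; omega
    exact_mod_cast this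
  · have : 0 < F' := by omega
    exact_mod_cast this

/-- unequal classes: linear stability -/
theorem core_unbal (c : W) (l : List W) (B : RT W) (k : ℕ)
    (hk : (RT.graft (starRT c l) B).size = k) (hl : 1 ≤ l.length) (hB : 1 ≤ B.size)
    (hno' : ∀ (G' : SimpleGraph V), G' ≤ G → ∀ u, ¬ (RT.graft (starRT c l) B).Emb G' u univ)
    (hs : (side (RT.graft (starRT c l) B)).1 ≠ (side (RT.graft (starRT c l) B)).2) :
    ((univ \ sK G k).card : ℚ) ≤ 2 * pC k 4 0 * Dl G k := by
  have h1 := L_unbal G (RT.graft (starRT c l) B) hno' (pF k 4 0) (pF' k 4 0) hs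
  rw [hk] at h1
  have h2 := core G c l B k 4 0 (by norm_num) hk hl hB hno' (univ \ sK G k)
    (sL1 G (pF k 4 0) (pF' k 4 0)) (Finset.Subset.refl _) (fun v _ h => h) h1
  norm_num at h2
  linarith

open Classical in
/-- all classes -/
theorem core_all (c : W) (l : List W) (B : RT W) (k N D : ℕ) (hN : 1 ≤ N)
    (hk : (RT.graft (starRT c l) B).size = k) (hl : 1 ≤ l.length) (hB : 1 ≤ B.size)
    (hno' : ∀ (G' : SimpleGraph V), G' ≤ G → ∀ u, ¬ (RT.graft (starRT c l) B).Emb G' u univ) :
    (((univ \ sK G k).filter (fun v => ¬ (2 * G.degree v + 1 = k ∧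
        ∀ w, G.Adj v w → D ≤ G.degree w))).card : ℚ) ≤
      2 * (1 / (N : ℚ)) * ((univ \ sK G k).card : ℚ) + pC k N D * Dl G k := by
  by_cases hs : (side (RT.graft (starRT c l) B)).1 = (side (RT.graft (starRT c l) B)).2
  · have h1 := L_bal G (RT.graft (starRT c l) B) hno' (pF k N D) (pF' k N D) hs
    rw [hk] at h1
    refine core G c l B k N D hN hk hl hB hno' _ _ (Finset.filter_subset _ _) ?_ h1
    intro v hv hvL
    rw [Finset.mem_filter] at hv ⊢
    refine ⟨hvL, fun h => hv.2 ⟨h, ?_⟩⟩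
    intro w hw
    simp only [sL1, Finset.mem_filter, Finset.mem_univ, true_and] at hvL
    have := hvL.2.1 w hw
    have h3 : D ≤ pF k N D := by unfold pF; omega
    omega
  · have h1 := L_unbal G (RT.graft (starRT c l) B) hno' (pF k N D) (pF' k N D) hs
    rw [hk] at h1
    exact core G c l B k N D hN hk hl hB hno' _ _ (Finset.filter_subset _ _)
      (fun v _ h => h) h1

end core

end Pool.Agent.H152.ESS
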