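import Pool.Agent.H152.ESS.Lower

/-! Counting vertices without slack. -/

set_option autoImplicit false

namespace Pool.Agent.H152.ESS

open Finset ES903

section count

variable {V : Type*} [DecidableEq V] [Fintype V] {W : Type*}
variable (G : SimpleGraph V) [DecidableRel G.Adj]

open Classical in
/-- vertices with much slack -/
noncomputable def Bd (c : W) (l : List W) (B : RT W) (M : ℕ) : Finset V :=
  univ.filter (fun u => ((Fintype.card V : ℚ) + 1) * kap M ≤
    sig G ((starRT c l).Emb G) (RT.Plant G ((starRT c l).Emb G)) (B.Emb G) u)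

theorem mem_Bd {c : W} {l : List W} {B : RT W} {M : ℕ} {u : V} :
    u ∈ Bd G c l B M ↔ ((Fintype.card V : ℚ) + 1) * kap M ≤
    sig G ((starRT c l).Emb G) (RT.Plant G ((starRT c l).Emb G)) (B.Emb G) u := by
  simp [Bd]

theorem card_Bd (c : W) (l : List W) (B : RT W) (M : ℕ)
    (hno : ∀ u, ¬ (RT.graft (starRT c l) B).Emb G u univ) :
    ((Bd G c l B M).card : ℚ) * kap M ≤
      2 * (((l.length + B.size + 1 : ℕ) : ℚ) * Fintype.card V - ∑ u, ((G.degree u : ℚ) + 1)) := by
  have h1 := total G (starRT c l) B hno
  rw [starRT_size] at h1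
  have hqm : ∀ v S T, S ⊆ T → RT.Plant G ((starRT c l).Emb G) v S →
      RT.Plant G ((starRT c l).Emb G) v T := RT.Plant_mono ((starRT c l).Emb_mono G)
  have h2 : ∑ u ∈ Bd G c l B M, (((Fintype.card V : ℚ) + 1) * kap M) ≤
      ∑ u, sig G ((starRT c l).Emb G) (RT.Plant G ((starRT c l).Emb G)) (B.Emb G) u := by
    refine (Finset.sum_le_sum (fun u hu => (mem_Bd G).1 hu)).trans ?_
    apply Finset.sum_le_sum_of_subset_of_nonneg (Finset.subset_univ _)
    intro u _ _
    exact (LU_nonneg G _ hqm u).trans (sig_ge_LU G _ B hno u)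
  rw [Finset.sum_const, nsmul_eq_mul] at h2
  have hn : (0:ℚ) < (Fintype.card V : ℚ) + 1 := by positivity
  have h3 := h2.trans h1
  have h4 : ((Fintype.card V : ℚ) + 1) * (((Bd G c l B M).card : ℚ) * kap M) ≤
      ((Fintype.card V : ℚ) + 1) * (2 * (((l.length + B.size + 1 : ℕ) : ℚ) * Fintype.card V -
        ∑ u, ((G.degree u : ℚ) + 1))) := by
    calc _ = ((Bd G c l B M).card : ℚ) * (((Fintype.card V : ℚ) + 1) * kap M) := by ring
      _ ≤ _ := h3
      _ = _ := by ring
  exact le_of_mul_le_mul_left h4 hn

/-- a neighbour of small degree gives slack -/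
theorem small_Bd (c : W) (l : List W) (B : RT W) (M : ℕ)
    (hno : ∀ u, ¬ (RT.graft (starRT c l) B).Emb G u univ) (hl : 1 ≤ l.length) (hB : 1 ≤ B.size)
    (hM : l.length + 1 ≤ M) (u v : V) (huv : G.Adj u v) (hv : G.degree v ≤ l.length) :
    u ∈ Bd G c l B M := by
  rw [mem_Bd]
  by_cases h : ∃ x, G.Adj u x ∧ l.length + 1 ≤ G.degree x
  · obtain ⟨x, hux, hx⟩ := h
    have h1 := LA_small G c l M u v x hux huv hv hx hM
    have h2 := sig_ge_LA G (starRT c l) B hno u v huv
    have h3 := LA_nonneg ((starRT c l).Emb G) (RT.Plant G ((starRT c l).Emb G)) v u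
      (fun S hS => plant_hyp G _ ((starRT c l).Emb_mono G) v u S huv.symm hS)
    linarith
  · push Not at h
    have h1 := LG_big G c l B hB M u hl (fun w hw => by have := h w hw; omega)
    exact h1.trans (sig_ge_LG G (starRT c l) B u)

/-- low vertices with a low and a huge neighbour -/
theorem X_cases (c : W) (l : List W) (B : RT W) (M F F' : ℕ)
    (hno : ∀ u, ¬ (RT.graft (starRT c l) B).Emb G u univ) (hl : 1 ≤ l.length)
    (hF' : F + l.length + 2 ≤ F') (hM : l.length + 1 + F ≤ M)
    (u v w : V) (huv : G.Adj u v) (huw : G.Adj u w) (hu : G.degree u ≤ F) (hv : G.degree v ≤ F)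
    (hw : F' ≤ G.degree w) :
    u ∈ Bd G c l B M ∨
      (u ∈ univ.filter (fun x => G.Adj w x ∧ G.degree x ≤ F ∧
          ∃ y, G.Adj w y ∧ G.degree y ≤ F ∧ G.Adj x y) ∧
        (univ.filter (fun x => G.Adj w x ∧ G.degree x ≤ F ∧
          ∃ y, G.Adj w y ∧ G.degree y ≤ F ∧ G.Adj x y)).card ≤ F * F + F + 1) := by
  classical
  by_cases hcase : 2 ≤ l.length ∨ ¬ G.Adj v w
  · left
    rw [mem_Bd]
    have h1 := LA_big G c l M F u v w huw huv hv (by omega) hl hcase (by omega)
    have h2 := sig_ge_LA G (starRT c l) B hno u v huv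
    have h3 := LA_nonneg ((starRT c l).Emb G) (RT.Plant G ((starRT c l).Emb G)) v u
      (fun S hS => plant_hyp G _ ((starRT c l).Emb_mono G) v u S huv.symm hS)
    linarith
  · push Not at hcase
    obtain ⟨hl2, hvw⟩ := hcase
    have hl1 : l.length = 1 := by omega
    by_cases hP : (univ.filter (fun x => G.Adj w x ∧ G.degree x ≤ F ∧
          ∃ y, G.Adj w y ∧ G.degree y ≤ F ∧ G.Adj x y)).card ≤ F * F + F + 1
    · right
      refine ⟨?_, hP⟩
      rw [Finset.mem_filter]
      exact ⟨Finset.mem_univ _, huw.symm, hu, v, hvw.symm, hv, huv⟩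
    · left
      push Not at hP
      set N2 := insert u (G.neighborFinset u ∪
        ((G.neighborFinset u).filter (fun y => G.degree y ≤ F)).biUnion
          (fun y => G.neighborFinset y)) with hN2
      have hc : N2.card ≤ F * F + F + 1 := by
        refine (Finset.card_insert_le _ _).trans ?_
        have k1 := Finset.card_union_le (G.neighborFinset u)
          (((G.neighborFinset u).filter (fun y => G.degree y ≤ F)).biUnion
          (fun y => G.neighborFinset y))
        have k2 : (((G.neighborFinset u).filter (fun y => G.degree y ≤ F)).biUnion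
          (fun y => G.neighborFinset y)).card ≤
            ((G.neighborFinset u).filter (fun y => G.degree y ≤ F)).card * F := by
          apply Finset.card_biUnion_le_card_mul
          intro y hy
          rw [SimpleGraph.card_neighborFinset_eq_degree]
          exact (Finset.mem_filter.1 hy).2
        have k3 := Finset.card_le_card (Finset.filter_subset (fun y => G.degree y ≤ F)
          (G.neighborFinset u))
        rw [SimpleGraph.card_neighborFinset_eq_degree] at k1 k3
        have k4 : ((G.neighborFinset u).filter (fun y => G.degree y ≤ F)).card * F ≤ F * F :=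
          Nat.mul_le_mul_right _ (k3.trans hu)
        omega
      obtain ⟨x, hx, hxN⟩ := Finset.exists_mem_notMem_of_card_lt_card (hc.trans_lt hP)
      rw [Finset.mem_filter] at hx
      obtain ⟨_, hwx, hxF, y, hwy, hyF, hxy⟩ := hx
      rw [hN2, Finset.mem_insert, Finset.mem_union, Finset.mem_biUnion, not_or, not_or] at hxN
      obtain ⟨hxu, hxn, hxb⟩ := hxN
      have hux : ¬ G.Adj u x := by
        intro h; exact hxn (by simpa using h)
      have huy : ¬ G.Adj u y := by
        intro h
        apply hxb
        refine ⟨y, ?_, ?_⟩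
        · rw [Finset.mem_filter, SimpleGraph.mem_neighborFinset]
          exact ⟨h, hyF⟩
        · rw [SimpleGraph.mem_neighborFinset]; exact hxy.symm
      rw [mem_Bd]
      have h1 := LA_edge G c l M F w u x y hwx huw.symm hu hl1 hxy hwy.ne' hux huy (by omega)
      have h2 := sig_ge_LA G (starRT c l) B hno u w huw
      have h3 := LA_nonneg ((starRT c l).Emb G) (RT.Plant G ((starRT c l).Emb G)) u w
        (fun S hS => plant_hyp G _ ((starRT c l).Emb_mono G) u w S huw hS)
      linarith

/-- closed neighbourhoods in a part of bounded degree -/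
theorem nested (c : W) (l : List W) (B : RT W) (M F F' : ℕ)
    (hno : ∀ u, ¬ (RT.graft (starRT c l) B).Emb G u univ) (hl : 1 ≤ l.length) (hB : 1 ≤ B.size)
    (hM : l.length + 1 + F + F * F' ≤ M) (u w : V)
    (hu : G.degree u ≤ F) (hnb : ∀ w, G.Adj u w → G.degree w < F') (huB : u ∉ Bd G c l B M)
    (huw : G.Adj u w) :
    ∀ y, G.Adj w y → y = u ∨ G.Adj u y := by
  classical
  intro y hwy
  by_contra hcon
  rw [not_or] at hcon
  have hw : l.length + 1 ≤ G.degree w := by
    by_contra h
    exact huB (small_Bd G c l B M hno hl hB (by nlinarith) u w huw (by omega))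
  apply huB
  rw [mem_Bd]
  have h1 := LU_big G c l M u w y huw hwy hcon.1 hcon.2 hw hl (by
    refine (Finset.card_union_le _ _).trans ?_
    have k2 : ((G.neighborFinset u).biUnion (fun x => G.neighborFinset x)).card ≤
        (G.neighborFinset u).card * F' := by
      apply Finset.card_biUnion_le_card_mul
      intro x hx
      rw [SimpleGraph.card_neighborFinset_eq_degree]
      exact (hnb x (by simpa using hx)).le
    rw [SimpleGraph.card_neighborFinset_eq_degree] at *
    have k3 : G.degree u * F' ≤ F * F' := Nat.mul_le_mul_right _ hu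
    omega)
  exact h1.trans (sig_ge_LU G (starRT c l) B hno u)

/-- the closed neighbourhood of `u` is a component -/
def Gd (u : V) : Prop := ∀ w, G.Adj u w → ∀ y, (w = y ∨ G.Adj w y) ↔ (u = y ∨ G.Adj u y)

theorem L0_cases (c : W) (l : List W) (B : RT W) (M F F' : ℕ)
    (hno : ∀ u, ¬ (RT.graft (starRT c l) B).Emb G u univ) (hl : 1 ≤ l.length) (hB : 1 ≤ B.size)
    (hM : l.length + 1 + F + F * F' ≤ M) (u : V)
    (hu : G.degree u ≤ F) (hnb : ∀ w, G.Adj u w → G.degree w < F') :
    Gd G u ∨ u ∈ Bd G c l B M ∨ (∃ w, G.Adj u w ∧ w ∈ Bd G c l B M ∧ G.degree w < F') ∨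
      (∃ w, G.Adj u w ∧ G.degree w ≤ F ∧ (∃ x, G.Adj w x ∧ G.degree x ≤ F) ∧
        ∃ x, G.Adj w x ∧ F' ≤ G.degree x) := by
  classical
  by_contra hcon
  push Not at hcon
  obtain ⟨h0, h1, h2, h3⟩ := hcon
  apply h0
  intro w huw y
  have k1 := nested G c l B M F F' hno hl hB hM u w hu hnb h1 huw
  have hwF : G.degree w ≤ F := by
    have : (insert w (G.neighborFinset w)) ⊆ insert u (G.neighborFinset u) := by
      intro z hz
      rw [Finset.mem_insert, SimpleGraph.mem_neighborFinset] at hz ⊢
      rcases hz with rfl | hz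
      · exact Or.inr huw
      · exact k1 z hz
    have := Finset.card_le_card this
    rw [Finset.card_insert_of_notMem (by simp), Finset.card_insert_of_notMem (by simp),
      SimpleGraph.card_neighborFinset_eq_degree, SimpleGraph.card_neighborFinset_eq_degree] at this
    omega
  have hwB : w ∉ Bd G c l B M := fun h => by
    have := h2 w huw h
    have := hnb w huw
    omega
  have hwn : ∀ x, G.Adj w x → G.degree x < F' :=
    h3 w huw hwF ⟨u, huw.symm, hu⟩
  have k2 := nested G c l B M F F' hno hl hB hM w u hwF hwn hwB huw.symm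
  constructor
  · rintro (rfl | h)
    · exact Or.inr huw
    · rcases k1 y h with h' | h'
      · exact Or.inl h'.symm
      · exact Or.inr h'
  · rintro (rfl | h)
    · exact Or.inr huw.symm
    · rcases k2 y h with h' | h'
      · exact Or.inl h'.symm
      · exact Or.inr h'

end count

end Pool.Agent.H152.ESS
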