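import Pool.Agent.H152.ESS.Final

/-! Stars and trees with equal colour classes: other extremal graphs. -/

set_option autoImplicit false

namespace Pool.Agent.H152.ESS

open Finset ES903

theorem bip_not {V : Type} (G : SimpleGraph V) (f : V → Bool) (hf : ∀ a b, G.Adj a b → f a ≠ f b)
    (k : ℕ) (hk : 3 ≤ k) (v : V) : ¬ InClique G k v := by
  classical
  rintro ⟨K, hv, hK, h⟩
  have h1 : 1 < (K.erase v).card := by rw [Finset.card_erase_of_mem hv]; omega
  obtain ⟨x, hx, y, hy, hxy⟩ := Finset.one_lt_card.1 h1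
  rw [Finset.mem_erase] at hx hy
  have e1 := hf v x ((h v hv x).2 ⟨hx.2, hx.1⟩)
  have e2 := hf v y ((h v hv y).2 ⟨hy.2, hy.1⟩)
  have e3 := hf x y ((h x hx.2 y).2 ⟨hy.2, hxy.symm⟩)
  cases h4 : f v <;> cases h5 : f x <;> cases h6 : f y <;> simp_all

/-- copies of `K_{d,d}` -/
def GS (m d : ℕ) : SimpleGraph (Fin m × Bool × Fin d) where
  Adj a b := a.1 = b.1 ∧ a.2.1 ≠ b.2.1
  symm := ⟨fun a b h => ⟨h.1.symm, h.2.symm⟩⟩
  loopless := ⟨fun a h => h.2 rfl⟩

theorem GS_nb (m d : ℕ) [DecidableRel (GS m d).Adj] (a : Fin m × Bool × Fin d) :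
    (GS m d).neighborFinset a = (univ : Finset (Fin d)).image (fun y => (a.1, !a.2.1, y)) := by
  ext b
  rw [SimpleGraph.mem_neighborFinset, Finset.mem_image]
  constructor
  · rintro ⟨h1, h2⟩
    refine ⟨b.2.2, Finset.mem_univ _, ?_⟩
    obtain ⟨b1, b2, b3⟩ := b
    obtain ⟨a1, a2, a3⟩ := a
    simp only at h1 h2 ⊢
    subst h1
    cases a2 <;> cases b2 <;> simp_all
  · rintro ⟨y, _, rfl⟩
    refine ⟨rfl, ?_⟩
    simp

theorem GS_deg (m d : ℕ) [DecidableRel (GS m d).Adj] (a : Fin m × Bool × Fin d) :
    (GS m d).degree a = d := by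
  rw [← SimpleGraph.card_neighborFinset_eq_degree, GS_nb, Finset.card_image_of_injective,
    Finset.card_univ, Fintype.card_fin]
  intro x y h
  simpa using h

theorem star_ex (k : ℕ) (hk : 3 ≤ k) (T : SimpleGraph (Fin (k + 1))) (hs : IsStar T) (N : ℕ)
    (δ : ℝ) (hδ : 0 < δ) :
    ∃ (V : Type) (_ : Fintype V) (G : SimpleGraph V), N ≤ Fintype.card V ∧ T.Free G ∧
      (((k : ℝ) - 1) / 2 - δ) * Fintype.card V ≤ (G.edgeSet.ncard : ℝ) ∧
      ∀ v, ¬ InClique G k v := by
  classical
  refine ⟨Fin N × Bool × Fin (k - 1), inferInstance, GS N (k - 1), ?_, ?_, ?_, ?_⟩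
  · simp only [Fintype.card_prod, Fintype.card_fin, Fintype.card_bool]
    have : 1 ≤ 2 * (k - 1) := by omega
    nlinarith
  · rintro ⟨g⟩
    obtain ⟨c, hc⟩ := hs
    have h1 : (univ.erase c).image g ⊆ (GS N (k - 1)).neighborFinset (g c) := by
      intro y hy
      obtain ⟨x, hx, rfl⟩ := Finset.mem_image.1 hy
      rw [SimpleGraph.mem_neighborFinset]
      exact g.toHom.map_adj (hc x (Finset.mem_erase.1 hx).1)
    have h2 := Finset.card_le_card h1
    have hginj : Function.Injective (fun x => g x) := g.injective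
    have h3 : ((univ.erase c).image (fun x => g x)).card = (univ.erase c).card :=
      Finset.card_image_of_injective _ hginj
    have h4 : ((univ.erase c).image (fun x => g x)).card ≤
      ((GS N (k - 1)).neighborFinset (g c)).card := h2
    rw [h3, Finset.card_erase_of_mem (Finset.mem_univ _),
      Finset.card_univ, Fintype.card_fin, SimpleGraph.card_neighborFinset_eq_degree,
      GS_deg] at h4
    omega
  · have h1 := ncard_edges (GS N (k - 1))
    have h2 : ∑ u, ((GS N (k - 1)).degree u : ℚ) =
        (Fintype.card (Fin N × Bool × Fin (k - 1)) : ℚ) * ((k : ℚ) - 1) := by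
      rw [Finset.sum_congr rfl (fun u _ => by rw [GS_deg]), Finset.sum_const, nsmul_eq_mul,
        Finset.card_univ]
      congr 1
      rw [Nat.cast_sub (by omega)]
      simp
    rw [h2] at h1
    have h3 : (2 * (GS N (k - 1)).edgeSet.ncard : ℝ) =
        (Fintype.card (Fin N × Bool × Fin (k - 1)) : ℝ) * ((k : ℝ) - 1) := by
      have := congrArg (fun q : ℚ => (q : ℝ)) h1
      push_cast at this ⊢
      exact this
    have h4 : (0:ℝ) ≤ (Fintype.card (Fin N × Bool × Fin (k - 1)) : ℝ) := by positivity
    nlinarith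
  · exact bip_not (GS N (k - 1)) (fun a => a.2.1) (fun a b h => h.2) k hk

/-- `K_{p,q}` -/
def GB (p q : ℕ) : SimpleGraph (Fin p ⊕ Fin q) where
  Adj a b := a.isLeft ≠ b.isLeft
  symm := ⟨fun a b h => h.symm⟩
  loopless := ⟨fun a h => h rfl⟩

theorem GB_deg_l (p q : ℕ) [DecidableRel (GB p q).Adj] (a : Fin p) :
    (GB p q).degree (Sum.inl a) = q := by
  rw [← SimpleGraph.card_neighborFinset_eq_degree]
  have : (GB p q).neighborFinset (Sum.inl a) = (univ : Finset (Fin q)).image Sum.inr := by
    ext b
    rw [SimpleGraph.mem_neighborFinset, Finset.mem_image]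
    rcases b with b | b
    · simp [GB]
    · simp [GB]
  rw [this, Finset.card_image_of_injective _ Sum.inr_injective, Finset.card_univ, Fintype.card_fin]

theorem GB_deg_r (p q : ℕ) [DecidableRel (GB p q).Adj] (a : Fin q) :
    (GB p q).degree (Sum.inr a) = p := by
  rw [← SimpleGraph.card_neighborFinset_eq_degree]
  have : (GB p q).neighborFinset (Sum.inr a) = (univ : Finset (Fin p)).image Sum.inl := by
    ext b
    rw [SimpleGraph.mem_neighborFinset, Finset.mem_image]
    rcases b with b | b
    · simp [GB]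
    · simp [GB]
  rw [this, Finset.card_image_of_injective _ Sum.inl_injective, Finset.card_univ, Fintype.card_fin]

theorem bool_const {W : Type} (T : SimpleGraph W) (hT : T.Connected) (f g : W → Bool)
    (hf : ∀ a b, T.Adj a b → f a ≠ f b) (hg : ∀ a b, T.Adj a b → g a ≠ g b) :
    (∀ x, g x = f x) ∨ (∀ x, g x = !(f x)) := by
  have h1 : ∀ a b, T.Reachable a b → ((g a = f a) ↔ (g b = f b)) := by
    intro a b hab
    obtain ⟨p⟩ := hab
    induction p with
    | nil => exact Iff.rfl
    | cons h p ih =>
      rw [← ih]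
      have e1 := hf _ _ h
      have e2 := hg _ _ h
      rename_i u v w
      cases h4 : f u <;> cases h5 : f v <;> cases h6 : g u <;> cases h7 : g v <;> simp_all
  obtain ⟨x0⟩ := hT.nonempty
  by_cases h : g x0 = f x0
  · left
    intro x
    exact (h1 x0 x (hT.preconnected x0 x)).1 h
  · right
    intro x
    have h2 : ¬ (g x = f x) := fun h' => h ((h1 x0 x (hT.preconnected x0 x)).2 h')
    cases h4 : f x <;> cases h5 : g x <;> simp_all

theorem bal_ex (k : ℕ) (hk : 3 ≤ k) (T : SimpleGraph (Fin (k + 1))) (hT : T.IsTree)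
    (hb : Balanced T) (N : ℕ) (δ : ℝ) (hδ : 0 < δ) :
    ∃ (V : Type) (_ : Fintype V) (G : SimpleGraph V), N ≤ Fintype.card V ∧ T.Free G ∧
      (((k : ℝ) - 1) / 2 - δ) * Fintype.card V ≤ (G.edgeSet.ncard : ℝ) ∧
      ∀ v, ¬ InClique G k v := by
  classical
  obtain ⟨f, hf, hcard⟩ := hb
  have e : ∀ (h : Fin (k + 1) → Bool) (v : Bool), {x | h x = v}.ncard =
      (univ.filter (fun x => h x = v)).card := by
    intro h v
    rw [← Set.ncard_coe_finset]
    congr 1
    ext x
    simp
  rw [e, e] at hcard
  have hsum : (univ.filter (fun x => f x = true)).card +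
      (univ.filter (fun x => f x = false)).card = k + 1 := by
    have := Finset.card_filter_add_card_filter_not (s := (univ : Finset (Fin (k + 1))))
      (fun x => f x = true)
    rw [Finset.card_univ, Fintype.card_fin] at this
    have h0 : (univ.filter (fun x => f x = false)) = (univ.filter (fun x => ¬ f x = true)) := by
      ext x
      simp
    rw [h0]
    exact this
  obtain ⟨p, hp⟩ : ∃ p, (univ.filter (fun x => f x = true)).card = p + 1 :=
    ⟨(univ.filter (fun x => f x = true)).card - 1, by omega⟩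
  have hk2 : k = 2 * p + 1 := by omega
  have hp1 : 1 ≤ p := by omega
  obtain ⟨q, hq⟩ := exists_nat_gt (((p : ℝ) ^ 2) / δ)
  refine ⟨Fin p ⊕ Fin (q + N), inferInstance, GB p (q + N), ?_, ?_, ?_, ?_⟩
  · simp only [Fintype.card_sum, Fintype.card_fin]
    omega
  · rintro ⟨g⟩
    have hg : ∀ a b, T.Adj a b → (g a).isLeft ≠ (g b).isLeft := fun a b h => g.toHom.map_adj h
    have hc := bool_const T hT.connected f (fun x => (g x).isLeft) hf hg
    have h1 : (univ.filter (fun x => (g x).isLeft = true)).card = p + 1 := by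
      rcases hc with h | h
      · rw [← hp]
        congr 1
        ext x
        simp only [Finset.mem_filter, Finset.mem_univ, true_and]
        rw [h x]
      · rw [← hp, hcard]
        congr 1
        ext x
        simp only [Finset.mem_filter, Finset.mem_univ, true_and]
        rw [h x]
        simp
    have h2 : (univ.filter (fun x => (g x).isLeft = true)).image g ⊆
        (univ : Finset (Fin p)).image Sum.inl := by
      intro y hy
      obtain ⟨x, hx, rfl⟩ := Finset.mem_image.1 hy
      rw [Finset.mem_filter] at hx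
      rw [Finset.mem_image]
      have hx2 := hx.2
      rcases hgx : g x with z | z
      · exact ⟨z, Finset.mem_univ _, rfl⟩
      · rw [hgx] at hx2
        simp at hx2
    have hginj : Function.Injective (fun x => g x) := g.injective
    have h4 : ((univ.filter (fun x => (g x).isLeft = true)).image (fun x => g x)).card =
        (univ.filter (fun x => (g x).isLeft = true)).card :=
      Finset.card_image_of_injective _ hginj
    have h3 : ((univ.filter (fun x => (g x).isLeft = true)).image (fun x => g x)).card ≤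
        ((univ : Finset (Fin p)).image Sum.inl).card := Finset.card_le_card h2
    rw [h4, h1,
      Finset.card_image_of_injective _ Sum.inl_injective, Finset.card_univ, Fintype.card_fin] at h3
    omega
  · have h1 := ncard_edges (GB p (q + N))
    rw [Fintype.sum_sum_type] at h1
    simp only [GB_deg_l, GB_deg_r, Finset.sum_const, Finset.card_univ, Fintype.card_fin,
      nsmul_eq_mul] at h1
    have h3 : (2 * (GB p (q + N)).edgeSet.ncard : ℝ) =
        (p : ℝ) * ((q + N : ℕ) : ℝ) + ((q + N : ℕ) : ℝ) * (p : ℝ) := by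
      have := congrArg (fun q : ℚ => (q : ℝ)) h1
      push_cast at this ⊢
      exact this
    have h4 : (Fintype.card (Fin p ⊕ Fin (q + N)) : ℝ) = (p : ℝ) + ((q + N : ℕ) : ℝ) := by
      simp only [Fintype.card_sum, Fintype.card_fin]
      push_cast
      ring
    have h5 : (k : ℝ) = 2 * p + 1 := by rw [hk2]; push_cast; ring
    rw [div_lt_iff₀ hδ] at hq
    rw [h4, h5]
    have h6 : (0:ℝ) ≤ (N : ℝ) := by positivity
    have h7 : (0:ℝ) ≤ (p : ℝ) := by positivity
    push_cast at h3 ⊢
    nlinarith [mul_nonneg hδ.le h6, mul_nonneg hδ.le h7]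
  · exact bip_not (GB p (q + N)) (fun a => a.isLeft) (fun a b h => h) k hk

end Pool.Agent.H152.ESS
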