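import Pool.Agent.H152.ESS.Core

/-! Final forms, and the examples. -/

set_option autoImplicit false

namespace Pool.Agent.H152.ESS

open Finset ES903

/-- `v` lies in a component of `G` which is a complete graph on `k` vertices -/
def InClique {V : Type} (G : SimpleGraph V) (k : ℕ) (v : V) : Prop :=
  ∃ K : Finset V, v ∈ K ∧ K.card = k ∧ ∀ x ∈ K, ∀ y, G.Adj x y ↔ (y ∈ K ∧ y ≠ x)

/-- some vertex is adjacent to all others -/
def IsStar {W : Type} (T : SimpleGraph W) : Prop := ∃ c, ∀ x, x ≠ c → T.Adj c x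

/-- there is a proper 2-colouring with classes of the same size -/
def Balanced {W : Type} (T : SimpleGraph W) : Prop :=
  ∃ f : W → Bool, (∀ a b, T.Adj a b → f a ≠ f b) ∧
    {x | f x = true}.ncard = {x | f x = false}.ncard

section

variable {V : Type} [Fintype V] [DecidableEq V] (G : SimpleGraph V) [DecidableRel G.Adj]

theorem inClique_iff (k : ℕ) (v : V) : InClique G k v ↔ v ∈ sK G k := by
  classical
  simp only [sK, Finset.mem_filter, Finset.mem_univ, true_and]
  constructor
  · rintro ⟨K, hv, hK, h⟩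
    have h1 : ∀ x ∈ K, insert x (G.neighborFinset x) = K := by
      intro x hx
      ext y
      rw [Finset.mem_insert, SimpleGraph.mem_neighborFinset, h x hx y]
      constructor
      · rintro (rfl | h2)
        · exact hx
        · exact h2.1
      · intro h2
        by_cases h3 : y = x
        · exact Or.inl h3
        · exact Or.inr ⟨h2, h3⟩
    have h0 : ∀ x ∈ K, ∀ y, (x = y ∨ G.Adj x y) ↔ y ∈ K := by
      intro x hx y
      rw [← h1 x hx, Finset.mem_insert, SimpleGraph.mem_neighborFinset, eq_comm]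
    constructor
    · intro w hw y
      have hwK : w ∈ K := ((h v hv w).1 hw).1
      rw [h0 w hwK y, h0 v hv y]
    · have h2 := congrArg Finset.card (h1 v hv)
      rw [Finset.card_insert_of_notMem (by simp), SimpleGraph.card_neighborFinset_eq_degree,
        hK] at h2
      exact h2
  · rintro ⟨h1, h2⟩
    refine ⟨insert v (G.neighborFinset v), Finset.mem_insert_self _ _, ?_, ?_⟩
    · rw [Finset.card_insert_of_notMem (by simp), SimpleGraph.card_neighborFinset_eq_degree, h2]
    · intro x hx y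
      have h3 : (x = y ∨ G.Adj x y) ↔ (v = y ∨ G.Adj v y) := by
        rw [Finset.mem_insert, SimpleGraph.mem_neighborFinset] at hx
        rcases hx with rfl | hx
        · exact Iff.rfl
        · exact h1 x hx y
      rw [Finset.mem_insert, SimpleGraph.mem_neighborFinset, @eq_comm _ y v, ← h3]
      constructor
      · intro h4
        exact ⟨Or.inr h4, h4.ne'⟩
      · rintro ⟨h4 | h4, h5⟩
        · exact absurd h4.symm h5
        · exact h4

theorem ncard_bad (k : ℕ) : {v | ¬ InClique G k v}.ncard = (univ \ sK G k).card := by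
  rw [← Set.ncard_coe_finset]
  congr 1
  ext v
  simp [inClique_iff G k v]

theorem ncard_edges : ((2 * G.edgeSet.ncard : ℕ) : ℚ) = ∑ u, (G.degree u : ℚ) := by
  rw [← G.coe_edgeFinset, Set.ncard_coe_finset, ← G.sum_degrees_eq_twice_card_edges]
  push_cast
  rfl

theorem ncard_nb (v : V) : (G.neighborSet v).ncard = G.degree v := by
  have h := Set.ncard_coe_finset (G.neighborFinset v)
  rw [SimpleGraph.coe_neighborFinset] at h
  rw [h, SimpleGraph.card_neighborFinset_eq_degree]

end

/-- linear stability -/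
theorem linear (k : ℕ) (hk : 3 ≤ k) : ∃ ε : ℝ, 0 < ε ∧
    ∀ T : SimpleGraph (Fin (k + 1)), T.IsTree → ¬ IsStar T → ¬ Balanced T →
      ∀ (V : Type) [Fintype V] (G : SimpleGraph V), T.Free G →
        (G.edgeSet.ncard : ℝ) ≤ ((k : ℝ) - 1) / 2 * Fintype.card V -
          ε * ({v | ¬ InClique G k v}.ncard : ℝ) := by
  classical
  have hC := pC_pos k 4 0
  have hCr : (0:ℝ) < ((pC k 4 0 : ℚ) : ℝ) := by exact_mod_cast hC
  refine ⟨1 / (4 * ((pC k 4 0 : ℚ) : ℝ)), by positivity, ?_⟩
  intro T hT hns hbal V _ G hfree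
  obtain ⟨c, l, B, h1, h2, h3, h4, hl, hB⟩ := tree_rep T hT (by simp; omega) hns
  have hsz : (RT.graft (starRT c l) B).size = k := by
    rw [Fintype.card_fin] at h4; omega
  have hs := side_ne T _ h1 h2 h3 (by
    intro f hf heq
    apply hbal
    refine ⟨f, hf, ?_⟩
    have e : ∀ v : Bool, {x | f x = v}.ncard = (univ.filter (fun x => f x = v)).card := by
      intro v
      rw [← Set.ncard_coe_finset]
      congr 1
      ext x
      simp
    rw [e, e]
    exact heq)
  have hno' := free_no T _ h1 h2 h3 G hfree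
  have h5 := core_unbal G c l B k hsz hl hB hno' hs
  rw [ncard_bad G k]
  unfold Dl at h5
  rw [← ncard_edges G] at h5
  have h6 : (((univ \ sK G k).card : ℕ) : ℝ) ≤ 2 * ((pC k 4 0 : ℚ) : ℝ) *
      (((k : ℝ) - 1) * Fintype.card V - ((2 * G.edgeSet.ncard : ℕ) : ℝ)) := by
    exact_mod_cast h5
  push_cast at h6
  have h7 : 1 / (4 * ((pC k 4 0 : ℚ) : ℝ)) * (((univ \ sK G k).card : ℕ) : ℝ) ≤
      (((k : ℝ) - 1) * Fintype.card V - 2 * (G.edgeSet.ncard : ℝ)) / 2 := by
    rw [div_mul_eq_mul_div, one_mul, div_le_div_iff₀ (by positivity) (by norm_num)]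
    nlinarith
  linarith

/-- stability for all trees which are not stars -/
theorem general (k : ℕ) (hk : 3 ≤ k) : ∀ η : ℝ, 0 < η → ∀ D : ℕ, ∃ δ : ℝ, 0 < δ ∧
    ∀ T : SimpleGraph (Fin (k + 1)), T.IsTree → ¬ IsStar T →
      ∀ (V : Type) [Fintype V] (G : SimpleGraph V), T.Free G →
        (((k : ℝ) - 1) / 2 - δ) * Fintype.card V ≤ (G.edgeSet.ncard : ℝ) →
        ({v | ¬ InClique G k v ∧ ¬ (2 * (G.neighborSet v).ncard + 1 = k ∧
          ∀ w, G.Adj v w → D ≤ (G.neighborSet w).ncard)}.ncard : ℝ) ≤ η * Fintype.card V := by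
  classical
  intro η hη D
  obtain ⟨N, hN⟩ := exists_nat_gt (4 / η)
  have hN0 : 0 < (N : ℝ) := lt_trans (by positivity) hN
  have hN1 : 1 ≤ N := by
    have : 0 < N := by exact_mod_cast hN0
    omega
  have hC := pC_pos k N D
  have hCr : (0:ℝ) < ((pC k N D : ℚ) : ℝ) := by exact_mod_cast hC
  refine ⟨η / (4 * ((pC k N D : ℚ) : ℝ)), by positivity, ?_⟩
  intro T hT hns V _ G hfree hedges
  obtain ⟨c, l, B, h1, h2, h3, h4, hl, hB⟩ := tree_rep T hT (by simp; omega) hns
  have hsz : (RT.graft (starRT c l) B).size = k := by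
    rw [Fintype.card_fin] at h4; omega
  have hno' := free_no T _ h1 h2 h3 G hfree
  have h5 := core_all G c l B k N D hN1 hsz hl hB hno'
  have h6 : {v | ¬ InClique G k v ∧ ¬ (2 * (G.neighborSet v).ncard + 1 = k ∧
          ∀ w, G.Adj v w → D ≤ (G.neighborSet w).ncard)}.ncard =
      ((univ \ sK G k).filter (fun v => ¬ (2 * G.degree v + 1 = k ∧
        ∀ w, G.Adj v w → D ≤ G.degree w))).card := by
    rw [← Set.ncard_coe_finset]
    congr 1
    ext v
    simp only [ncard_nb, inClique_iff, Set.mem_ofPred_eq, Finset.coe_filter, Finset.mem_sdiff,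
      Finset.mem_univ, true_and]
  rw [h6]
  unfold Dl at h5
  rw [← ncard_edges G] at h5
  have h7 : ((((univ \ sK G k).filter (fun v => ¬ (2 * G.degree v + 1 = k ∧
        ∀ w, G.Adj v w → D ≤ G.degree w))).card : ℕ) : ℝ) ≤
      2 * (1 / (N : ℝ)) * (((univ \ sK G k).card : ℕ) : ℝ) + ((pC k N D : ℚ) : ℝ) *
      (((k : ℝ) - 1) * Fintype.card V - ((2 * G.edgeSet.ncard : ℕ) : ℝ)) := by
    have h7 := (Rat.cast_le (K := ℝ)).2 h5
    push_cast at h7 ⊢
    exact h7
  push_cast at h7
  have h8 : (((univ \ sK G k).card : ℕ) : ℝ) ≤ (Fintype.card V : ℝ) := by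
    exact_mod_cast Finset.card_le_univ _
  have h9 : 2 * (1 / (N : ℝ)) * (((univ \ sK G k).card : ℕ) : ℝ) ≤ η / 2 * Fintype.card V := by
    have e1 : 2 * (1 / (N : ℝ)) ≤ η / 2 := by
      rw [mul_one_div, div_le_div_iff₀ hN0 (by norm_num)]
      rw [div_lt_iff₀ hη] at hN
      linarith
    exact mul_le_mul e1 h8 (by positivity) (by positivity)
  have h10 : ((pC k N D : ℚ) : ℝ) *
      (((k : ℝ) - 1) * Fintype.card V - 2 * (G.edgeSet.ncard : ℝ)) ≤ η / 2 * Fintype.card V := by
    have e2 : ((k : ℝ) - 1) * Fintype.card V - 2 * (G.edgeSet.ncard : ℝ) ≤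
        2 * (η / (4 * ((pC k N D : ℚ) : ℝ))) * Fintype.card V := by
      linarith
    have e3 := mul_le_mul_of_nonneg_left e2 hCr.le
    have e4 : ((pC k N D : ℚ) : ℝ) * (2 * (η / (4 * ((pC k N D : ℚ) : ℝ))) * Fintype.card V) =
        η / 2 * Fintype.card V := by
      field_simp
      ring
    linarith
  linarith

end Pool.Agent.H152.ESS
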