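import Pool.Agent.H152.ESS.Slack

/-! Lower bounds for the slack terms. -/

set_option autoImplicit false

namespace Pool.Agent.H152.ESS

open Finset ES903

section lower

variable {V : Type*} [DecidableEq V] [Fintype V] {W : Type*}
variable (G : SimpleGraph V) [DecidableRel G.Adj]

theorem LA_ge (c : W) (l : List W) (M : ℕ) (u v x : V) (Y C : Finset V) (hux : G.Adj u x)
    (hadj : G.Adj u v)
    (hY : ∀ y ∈ Y, G.Adj x y ∧ y ≠ u) (hYc : l.length ≤ Y.card) (hd : Disjoint (insert x Y) C)
    (hM : (insert x Y).card + C.card ≤ M)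
    (hnot : ∀ S, Disjoint C S → (G.neighborFinset v ∩ S.erase u).card < l.length) :
    ((Fintype.card V : ℚ) + 1) * kap M ≤
      LA ((starRT c l).Emb G) (RT.Plant G ((starRT c l).Emb G)) u v := by
  unfold LA
  refine E_sub_ge M (insert x Y) C hd hM (fun S => (starRT c l).Emb G v (S.erase u))
    (fun S => RT.Plant G ((starRT c l).Emb G) u (insert v S)) ?_ ?_
  · intro S hS
    exact plant_hyp G _ ((starRT c l).Emb_mono G) u v S hadj hS
  · intro S hA hC
    constructor
    · rw [starRT_emb]
      have := hnot S hC
      omega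
    · refine ⟨x, Finset.mem_insert_of_mem (hA (Finset.mem_insert_self _ _)), hux, ?_⟩
      rw [starRT_emb]
      refine hYc.trans (Finset.card_le_card ?_)
      intro y hy
      rw [Finset.mem_inter, SimpleGraph.mem_neighborFinset, Finset.mem_erase]
      exact ⟨(hY y hy).1, (hY y hy).2,
        Finset.mem_insert_of_mem (hA (Finset.mem_insert_of_mem hy))⟩

/-- (P2a) -/
theorem LA_small (c : W) (l : List W) (M : ℕ) (u v x : V) (hux : G.Adj u x) (huv : G.Adj u v)
    (hv : G.degree v ≤ l.length) (hx : l.length + 1 ≤ G.degree x) (hM : l.length + 1 ≤ M) :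
    ((Fintype.card V : ℚ) + 1) * kap M ≤
      LA ((starRT c l).Emb G) (RT.Plant G ((starRT c l).Emb G)) u v := by
  have hu : u ∈ G.neighborFinset x := by rw [SimpleGraph.mem_neighborFinset]; exact hux.symm
  have h1 : l.length ≤ ((G.neighborFinset x).erase u).card := by
    rw [Finset.card_erase_of_mem hu, SimpleGraph.card_neighborFinset_eq_degree]
    omega
  obtain ⟨Y, hY1, hY2⟩ := Finset.exists_subset_card_eq h1
  have hxY : x ∉ Y := fun h => by
    have := Finset.mem_of_mem_erase (hY1 h)
    rw [SimpleGraph.mem_neighborFinset] at this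
    exact this.ne rfl
  apply LA_ge G c l M u v x Y ∅ hux huv
  · intro y hy
    have := Finset.mem_erase.1 (hY1 hy)
    exact ⟨(SimpleGraph.mem_neighborFinset _ _ _).1 this.2, this.1⟩
  · omega
  · exact Finset.disjoint_empty_right _
  · rw [Finset.card_insert_of_notMem hxY, hY2, Finset.card_empty]
    omega
  · intro S _
    have huv' : u ∈ G.neighborFinset v := by
      rw [SimpleGraph.mem_neighborFinset]; exact huv.symm
    have h2 : G.neighborFinset v ∩ S.erase u ⊆ (G.neighborFinset v).erase u := by
      intro y hy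
      rw [Finset.mem_inter, Finset.mem_erase] at hy
      exact Finset.mem_erase.2 ⟨hy.2.1, hy.1⟩
    have h3 := Finset.card_le_card h2
    rw [Finset.card_erase_of_mem huv', SimpleGraph.card_neighborFinset_eq_degree] at h3
    have h4 : 0 < (G.neighborFinset v).card := Finset.card_pos.2 ⟨u, huv'⟩
    rw [SimpleGraph.card_neighborFinset_eq_degree] at h4
    omega

/-- (P3) a neighbour `x` of huge degree -/
theorem LA_big (c : W) (l : List W) (M F : ℕ) (u v x : V) (hux : G.Adj u x) (huv : G.Adj u v)
    (hv : G.degree v ≤ F) (hx : F + l.length + 2 ≤ G.degree x) (hl : 1 ≤ l.length)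
    (hcase : 2 ≤ l.length ∨ ¬ G.Adj v x) (hM : l.length + 1 + F ≤ M) :
    ((Fintype.card V : ℚ) + 1) * kap M ≤
      LA ((starRT c l).Emb G) (RT.Plant G ((starRT c l).Emb G)) u v := by
  have hxv : x ≠ v := by rintro rfl; omega
  have h1 : l.length ≤ (G.neighborFinset x \ (insert u (insert v (G.neighborFinset v)))).card := by
    have := Finset.le_card_sdiff (insert u (insert v (G.neighborFinset v))) (G.neighborFinset x)
    have h2 : (insert u (insert v (G.neighborFinset v))).card ≤ F + 2 := by
      refine (Finset.card_insert_le _ _).trans ?_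
      have := Finset.card_insert_le v (G.neighborFinset v)
      rw [SimpleGraph.card_neighborFinset_eq_degree] at this
      omega
    rw [SimpleGraph.card_neighborFinset_eq_degree] at this
    omega
  obtain ⟨Y, hY1, hY2⟩ := Finset.exists_subset_card_eq h1
  have hYm : ∀ y ∈ Y, G.Adj x y ∧ y ≠ u ∧ y ≠ v ∧ ¬ G.Adj v y := by
    intro y hy
    have := Finset.mem_sdiff.1 (hY1 hy)
    rw [SimpleGraph.mem_neighborFinset] at this
    simp only [Finset.mem_insert, SimpleGraph.mem_neighborFinset, not_or] at this
    exact ⟨this.1, this.2.1, this.2.2.1, this.2.2.2⟩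
  have hxY : x ∉ Y := fun h => (hYm x h).1.ne rfl
  rcases hcase with hc | hc
  · -- at least two leaves
    apply LA_ge G c l M u v x Y ((G.neighborFinset v) \ {u, x}) hux huv
    · intro y hy
      exact ⟨(hYm y hy).1, (hYm y hy).2.1⟩
    · omega
    · rw [Finset.disjoint_left]
      intro y hy hy2
      rw [Finset.mem_sdiff, SimpleGraph.mem_neighborFinset, Finset.mem_insert,
        Finset.mem_singleton, not_or] at hy2
      rcases Finset.mem_insert.1 hy with rfl | h
      · exact hy2.2.2 rfl
      · exact (hYm y h).2.2.2 hy2.1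
    · rw [Finset.card_insert_of_notMem hxY, hY2]
      have := Finset.card_le_card (Finset.sdiff_subset : (G.neighborFinset v) \ {u, x} ⊆ _)
      rw [SimpleGraph.card_neighborFinset_eq_degree] at this
      omega
    · intro S hS
      have h2 : G.neighborFinset v ∩ S.erase u ⊆ {x} := by
        intro y hy
        rw [Finset.mem_inter, Finset.mem_erase] at hy
        by_contra hne
        rw [Finset.mem_singleton] at hne
        refine (Finset.disjoint_left.1 hS) ?_ hy.2.2
        rw [Finset.mem_sdiff, Finset.mem_insert, Finset.mem_singleton, not_or]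
        exact ⟨hy.1, hy.2.1, hne⟩
      have h3 := Finset.card_le_card h2
      rw [Finset.card_singleton] at h3
      omega
  · apply LA_ge G c l M u v x Y ((G.neighborFinset v).erase u) hux huv
    · intro y hy
      exact ⟨(hYm y hy).1, (hYm y hy).2.1⟩
    · omega
    · rw [Finset.disjoint_left]
      intro y hy hy2
      rw [Finset.mem_erase, SimpleGraph.mem_neighborFinset] at hy2
      rcases Finset.mem_insert.1 hy with rfl | h
      · exact hc hy2.2
      · exact (hYm y h).2.2.2 hy2.2
    · rw [Finset.card_insert_of_notMem hxY, hY2]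
      have := Finset.card_le_card (Finset.erase_subset u (G.neighborFinset v))
      rw [SimpleGraph.card_neighborFinset_eq_degree] at this
      omega
    · intro S hS
      have h2 : G.neighborFinset v ∩ S.erase u = ∅ := by
        rw [Finset.eq_empty_iff_forall_notMem]
        intro y hy
        rw [Finset.mem_inter, Finset.mem_erase] at hy
        refine (Finset.disjoint_left.1 hS) ?_ hy.2.2
        rw [Finset.mem_erase]
        exact ⟨hy.2.1, hy.1⟩
      rw [h2, Finset.card_empty]
      omega

/-- (P3b) an edge `x y` away from `v`, for a path branch -/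
theorem LA_edge (c : W) (l : List W) (M F : ℕ) (u v x y : V) (hux : G.Adj u x) (huv : G.Adj u v)
    (hv : G.degree v ≤ F) (hl : l.length = 1) (hxy : G.Adj x y) (hyu : y ≠ u)
    (hvx : ¬ G.Adj v x) (hvy : ¬ G.Adj v y) (hM : 2 + F ≤ M) :
    ((Fintype.card V : ℚ) + 1) * kap M ≤
      LA ((starRT c l).Emb G) (RT.Plant G ((starRT c l).Emb G)) u v := by
  have hxY : x ∉ ({y} : Finset V) := by
    rw [Finset.mem_singleton]; exact hxy.ne
  apply LA_ge G c l M u v x {y} ((G.neighborFinset v).erase u) hux huv
  · intro z hz
    rw [Finset.mem_singleton] at hz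
    subst hz
    exact ⟨hxy, hyu⟩
  · rw [hl, Finset.card_singleton]
  · rw [Finset.disjoint_left]
    intro z hz hz2
    rw [Finset.mem_erase, SimpleGraph.mem_neighborFinset] at hz2
    rcases Finset.mem_insert.1 hz with rfl | h
    · exact hvx hz2.2
    · rw [Finset.mem_singleton] at h
      subst h
      exact hvy hz2.2
  · rw [Finset.card_insert_of_notMem hxY, Finset.card_singleton]
    have := Finset.card_le_card (Finset.erase_subset u (G.neighborFinset v))
    rw [SimpleGraph.card_neighborFinset_eq_degree] at this
    omega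
  · intro S hS
    have h2 : G.neighborFinset v ∩ S.erase u = ∅ := by
      rw [Finset.eq_empty_iff_forall_notMem]
      intro z hz
      rw [Finset.mem_inter, Finset.mem_erase] at hz
      refine (Finset.disjoint_left.1 hS) ?_ hz.2.2
      rw [Finset.mem_erase]
      exact ⟨hz.2.1, hz.1⟩
    rw [h2, Finset.card_empty]
    omega

/-- (P1) -/
theorem LU_big (c : W) (l : List W) (M : ℕ) (u w y : V) (huw : G.Adj u w) (hwy : G.Adj w y)
    (hyu : y ≠ u) (huy : ¬ G.Adj u y) (hw : l.length + 1 ≤ G.degree w) (hl : 1 ≤ l.length)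
    (hM : (G.neighborFinset u ∪ (G.neighborFinset u).biUnion (fun x => G.neighborFinset x)).card
      ≤ M) :
    ((Fintype.card V : ℚ) + 1) * kap M ≤ LU G (RT.Plant G ((starRT c l).Emb G)) u := by
  classical
  set Z := (G.neighborFinset u ∪ (G.neighborFinset u).biUnion (fun x => G.neighborFinset x)) with hZ
  have hqm : ∀ v S T, S ⊆ T → RT.Plant G ((starRT c l).Emb G) v S →
      RT.Plant G ((starRT c l).Emb G) v T := RT.Plant_mono ((starRT c l).Emb_mono G)
  have hyn : y ∈ univ \ G.neighborFinset u := by
    rw [Finset.mem_sdiff, SimpleGraph.mem_neighborFinset]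
    exact ⟨Finset.mem_univ _, huy⟩
  have h0 := Finset.single_le_sum
    (f := fun x => E univ (Fail (RT.Plant G ((starRT c l).Emb G) u)) -
      E univ (fun S => Fail (RT.Plant G ((starRT c l).Emb G) u) (insert x S)))
    (fun x _ => LU_term_nonneg _ hqm u x) hyn
  refine le_trans ?_ h0
  -- the leaves
  have h1 : l.length - 1 ≤ (((G.neighborFinset w).erase u).erase y).card := by
    have k1 : u ∈ G.neighborFinset w := by rw [SimpleGraph.mem_neighborFinset]; exact huw.symm
    have k2 : y ∈ (G.neighborFinset w).erase u := by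
      rw [Finset.mem_erase, SimpleGraph.mem_neighborFinset]; exact ⟨hyu, hwy⟩
    rw [Finset.card_erase_of_mem k2, Finset.card_erase_of_mem k1,
      SimpleGraph.card_neighborFinset_eq_degree]
    omega
  obtain ⟨Y, hY1, hY2⟩ := Finset.exists_subset_card_eq h1
  have hYm : ∀ z ∈ Y, G.Adj w z ∧ z ≠ u ∧ z ≠ y := by
    intro z hz
    have := hY1 hz
    rw [Finset.mem_erase, Finset.mem_erase, SimpleGraph.mem_neighborFinset] at this
    exact ⟨this.2.2, this.2.1, this.1⟩
  have hwY : w ∉ Y := fun h => (hYm w h).1.ne rfl
  have hAZ : insert w Y ⊆ Z.erase u := by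
    intro z hz
    rw [Finset.mem_erase, hZ, Finset.mem_union, Finset.mem_biUnion]
    rcases Finset.mem_insert.1 hz with rfl | h
    · refine ⟨huw.ne', Or.inl ?_⟩
      rw [SimpleGraph.mem_neighborFinset]; exact huw
    · refine ⟨(hYm z h).2.1, Or.inr ⟨w, ?_, ?_⟩⟩
      · rw [SimpleGraph.mem_neighborFinset]; exact huw
      · rw [SimpleGraph.mem_neighborFinset]; exact (hYm z h).1
  refine E_sub_ge M (insert w Y) ((Z.erase u) \ (insert w Y)) Finset.disjoint_sdiff ?_
    (RT.Plant G ((starRT c l).Emb G) u)
    (fun S => RT.Plant G ((starRT c l).Emb G) u (insert y S)) ?_ ?_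
  · rw [Finset.card_sdiff_of_subset hAZ]
    have h2 := Finset.card_le_card hAZ
    have h3 := Finset.card_le_card (Finset.erase_subset u Z)
    omega
  · intro S hS
    exact hqm u S _ (Finset.subset_insert _ _) hS
  · intro S hA hC
    constructor
    · rintro ⟨x, hxS, hux, hx⟩
      rw [starRT_emb] at hx
      have h4 : insert x (G.neighborFinset x ∩ S.erase u) ⊆ insert w Y := by
        intro z hz
        by_contra hne
        have hzS : z ∈ S ∧ z ∈ Z.erase u := by
          rcases Finset.mem_insert.1 hz with rfl | h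
          · refine ⟨hxS, ?_⟩
            rw [Finset.mem_erase, hZ, Finset.mem_union]
            refine ⟨hux.ne', Or.inl ?_⟩
            rw [SimpleGraph.mem_neighborFinset]; exact hux
          · rw [Finset.mem_inter, Finset.mem_erase] at h
            refine ⟨h.2.2, ?_⟩
            rw [Finset.mem_erase, hZ, Finset.mem_union, Finset.mem_biUnion]
            refine ⟨h.2.1, Or.inr ⟨x, ?_, h.1⟩⟩
            rw [SimpleGraph.mem_neighborFinset]; exact hux
        exact (Finset.disjoint_left.1 hC) (Finset.mem_sdiff.2 ⟨hzS.2, hne⟩) hzS.1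
      have h5 := Finset.card_le_card h4
      rw [Finset.card_insert_of_notMem, Finset.card_insert_of_notMem hwY, hY2] at h5
      · omega
      · intro h
        rw [Finset.mem_inter, SimpleGraph.mem_neighborFinset] at h
        exact h.1.ne rfl
    · refine ⟨w, Finset.mem_insert_of_mem (hA (Finset.mem_insert_self _ _)), huw, ?_⟩
      rw [starRT_emb]
      have h6 : insert y Y ⊆ G.neighborFinset w ∩ (insert y S).erase u := by
        intro z hz
        rw [Finset.mem_inter, SimpleGraph.mem_neighborFinset, Finset.mem_erase]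
        rcases Finset.mem_insert.1 hz with rfl | h
        · exact ⟨hwy, hyu, Finset.mem_insert_self _ _⟩
        · exact ⟨(hYm z h).1, (hYm z h).2.1,
            Finset.mem_insert_of_mem (hA (Finset.mem_insert_of_mem h))⟩
      have h7 := Finset.card_le_card h6
      rw [Finset.card_insert_of_notMem (fun h => (hYm y h).2.2 rfl), hY2] at h7
      omega

theorem E_empty (C : Finset V) :
    E univ (fun S : Finset V => if Disjoint C S then (1:ℚ) else 0) =
      ((Fintype.card V : ℚ) + 1) / ((C.card : ℚ) + 1) := by
  have h4 := E_event ∅ C (Finset.disjoint_empty_left _) (univ \ (∅ ∪ C)) Finset.sdiff_disjoint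
  rw [Finset.sdiff_union_of_subset (Finset.subset_univ _), Finset.card_univ] at h4
  simpa using h4

/-- (P2b) -/
theorem LG_big (c : W) (l : List W) (B : RT W) (hB : 1 ≤ B.size) (M : ℕ) (u : V)
    (hl : 1 ≤ l.length) (hall : ∀ w, G.Adj u w → G.degree w ≤ l.length) :
    ((Fintype.card V : ℚ) + 1) * kap M ≤
      LG G (RT.Plant G ((starRT c l).Emb G)) (B.Emb G) u := by
  have h1 : E univ (Fail (RT.Plant G ((starRT c l).Emb G) u)) = (Fintype.card V : ℚ) + 1 := by
    have : Fail (RT.Plant G ((starRT c l).Emb G) u) = fun _ => 1 := by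
      funext S
      have : ¬ RT.Plant G ((starRT c l).Emb G) u S := by
        rintro ⟨w, _, huw, hw⟩
        rw [starRT_emb] at hw
        have huv' : u ∈ G.neighborFinset w := by
          rw [SimpleGraph.mem_neighborFinset]; exact huw.symm
        have h2 : G.neighborFinset w ∩ S.erase u ⊆ (G.neighborFinset w).erase u := by
          intro y hy
          rw [Finset.mem_inter, Finset.mem_erase] at hy
          exact Finset.mem_erase.2 ⟨hy.2.1, hy.1⟩
        have h3 := Finset.card_le_card h2
        rw [Finset.card_erase_of_mem huv', SimpleGraph.card_neighborFinset_eq_degree] at h3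
        have := hall w huw
        omega
      simp [Fail, this]
    rw [this, E_one, Finset.card_univ]
  have h2 : E univ (fun S : Finset V => if Disjoint (G.neighborFinset u) S then (1:ℚ) else 0) ≤
      E univ (Fail (B.Emb G u)) := by
    apply E_mono
    intro S _
    split_ifs with h
    · have : ¬ B.Emb G u S := by
        cases B with
        | node w => simp [RT.size] at hB
        | graft A' B' =>
          rintro ⟨S1, hS1, ⟨v, hv, hadj, _⟩, _⟩
          exact (Finset.disjoint_left.1 h) (by simpa using hadj) (hS1 hv)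
      simp [Fail, this]
    · exact Fail_nonneg _ _
  rw [E_empty, SimpleGraph.card_neighborFinset_eq_degree] at h2
  unfold LG
  rw [h1]
  have hd : (0:ℚ) < (G.degree u : ℚ) + 1 := by positivity
  have h3 := mul_le_mul_of_nonneg_left h2 hd.le
  rw [mul_div_cancel₀ _ hd.ne'] at h3
  have h4 : kap M ≤ 1 := by
    unfold kap
    rw [div_le_one (by positivity)]
    have : (1:ℚ) ≤ 2 ^ M := one_le_pow₀ (by norm_num)
    have : (0:ℚ) ≤ M := by positivity
    nlinarith
  have hn : (0:ℚ) ≤ (Fintype.card V : ℚ) + 1 := by positivity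
  nlinarith [mul_le_mul_of_nonneg_left h4 hn]

end lower

end Pool.Agent.H152.ESS
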