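import Pool.Agent.H152.ESS.Color

/-! The slack terms for a tree with a star branch at the root and lower bounds for them. -/

set_option autoImplicit false

namespace Pool.Agent.H152.ESS

open Finset ES903

section star

variable {V : Type*} [DecidableEq V] [Fintype V] {W : Type*}

/-- the star with centre `c` and leaves `l` -/
def starRT (c : W) : List W → RT W
  | [] => RT.node c
  | a :: l => RT.graft (RT.node a) (starRT c l)

theorem starRT_size (c : W) (l : List W) : (starRT c l).size = l.length := by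
  induction l with
  | nil => rfl
  | cons a l ih => simp [starRT, RT.size, ih]

theorem starRT_emb (G : SimpleGraph V) [DecidableRel G.Adj] (c : W) (l : List W) :
    ∀ (w : V) (S : Finset V), (starRT c l).Emb G w S ↔ l.length ≤ (G.neighborFinset w ∩ S).card := by
  induction l with
  | nil => intro w S; simp [starRT, RT.Emb]
  | cons a l ih =>
    intro w S
    constructor
    · rintro ⟨S1, hS1, ⟨v, hv, hadj, _⟩, h2⟩
      rw [ih] at h2
      have h3 : G.neighborFinset w ∩ (S \ S1) ⊆ (G.neighborFinset w ∩ S).erase v := by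
        intro x hx
        rw [Finset.mem_inter, Finset.mem_sdiff] at hx
        rw [Finset.mem_erase, Finset.mem_inter]
        refine ⟨?_, hx.1, hx.2.1⟩
        rintro rfl
        exact hx.2.2 hv
      have h4 := Finset.card_le_card h3
      have h5 : v ∈ G.neighborFinset w ∩ S := by
        rw [Finset.mem_inter, SimpleGraph.mem_neighborFinset]
        exact ⟨hadj, hS1 hv⟩
      rw [Finset.card_erase_of_mem h5] at h4
      have h6 : 0 < (G.neighborFinset w ∩ S).card := Finset.card_pos.2 ⟨v, h5⟩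
      rw [List.length_cons]
      omega
    · intro h
      rw [List.length_cons] at h
      have h6 : 0 < (G.neighborFinset w ∩ S).card := by omega
      obtain ⟨v, hv⟩ := Finset.card_pos.1 h6
      have hv' := Finset.mem_inter.1 hv
      refine ⟨{v}, Finset.singleton_subset_iff.2 hv'.2, ⟨v, Finset.mem_singleton_self _,
        (SimpleGraph.mem_neighborFinset _ _ _).1 hv'.1, trivial⟩, ?_⟩
      rw [ih]
      have h3 : (G.neighborFinset w ∩ S).erase v ⊆ G.neighborFinset w ∩ (S \ {v}) := by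
        intro x hx
        rw [Finset.mem_erase, Finset.mem_inter] at hx
        rw [Finset.mem_inter, Finset.mem_sdiff, Finset.mem_singleton]
        exact ⟨hx.2.1, hx.2.2, hx.1⟩
      have h4 := Finset.card_le_card h3
      rw [Finset.card_erase_of_mem hv] at h4
      omega

end star

section slack

variable {V : Type*} [DecidableEq V] [Fintype V]

theorem E_sub_ge (M : ℕ) (A C : Finset V) (hd : Disjoint A C)
    (hM : A.card + C.card ≤ M) (f g : Finset V → Prop) (hfg : ∀ S, f S → g S)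
    (hev : ∀ S, A ⊆ S → Disjoint C S → ¬ f S ∧ g S) :
    ((Fintype.card V : ℚ) + 1) * kap M ≤ E univ (Fail f) - E univ (Fail g) := by
  have h1 : E univ (Fail f) - E univ (Fail g) = E univ (fun S => Fail f S - Fail g S) := by
    unfold E
    rw [← Finset.sum_sub_distrib]
    exact Finset.sum_congr rfl (fun S _ => by rw [sub_div])
  rw [h1]
  apply E_ge M A C hd hM
  · intro S
    have := Fail_mono (f := f) (g := g) (S := S) (T := S) (hfg S)
    linarith
  · intro S hA hC
    obtain ⟨h2, h3⟩ := hev S hA hC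
    simp [Fail, h2, h3]

variable (G : SimpleGraph V) [DecidableRel G.Adj]

/-- loss at the gluing -/
noncomputable def LG (q b : V → Finset V → Prop) (u : V) : ℚ :=
  ((G.degree u : ℚ) + 1) * (E univ (Fail (q u)) + E univ (Fail (b u)) -
    ((Fintype.card V : ℚ) + 1))

/-- total loss charged to the vertex `u` -/
noncomputable def sig (p q b : V → Finset V → Prop) (u : V) : ℚ :=
  LU G q u + LG G q b u + ∑ v ∈ G.neighborFinset u, (LA p q u v + LA p q v u)

theorem LG_nonneg {W : Type*} (A B : RT W) (hno : ∀ u, ¬ (RT.graft A B).Emb G u univ) (u : V) :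
    0 ≤ LG G (RT.Plant G (A.Emb G)) (B.Emb G) u := by
  unfold LG
  have h1 := glue univ (RT.Plant G (A.Emb G) u) (B.Emb G u)
  have h2 : E univ (Fail ((RT.graft A B).Emb G u)) = (Fintype.card V : ℚ) + 1 := E_not (hno u)
  have h3 : E univ (Fail ((RT.graft A B).Emb G u)) ≤
    E univ (Fail (RT.Plant G (A.Emb G) u)) + E univ (Fail (B.Emb G u)) := h1
  apply mul_nonneg (by positivity)
  linarith

theorem total {W : Type*} (A B : RT W) (hno : ∀ u, ¬ (RT.graft A B).Emb G u univ) :
    ∑ u, sig G (A.Emb G) (RT.Plant G (A.Emb G)) (B.Emb G) u ≤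
      2 * (((Fintype.card V : ℚ) + 1) * (((A.size + B.size + 1 : ℕ) : ℚ) * Fintype.card V -
        ∑ u, ((G.degree u : ℚ) + 1))) := by
  have h1 := plant_slack G univ univ (fun _ _ _ => by simp) (A.Emb G) (RT.Plant G (A.Emb G))
    (A.Emb_mono G)
  have h2 := A.cost G
  have h3 := B.cost G
  have h4 : ∑ u, LG G (RT.Plant G (A.Emb G)) (B.Emb G) u =
      ∑ u, ((G.degree u : ℚ) + 1) * E univ (Fail (RT.Plant G (A.Emb G) u)) +
      ∑ u, ((G.degree u : ℚ) + 1) * E univ (Fail (B.Emb G u)) -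
      (∑ u, ((G.degree u : ℚ) + 1)) * ((Fintype.card V : ℚ) + 1) := by
    rw [Finset.sum_mul, ← Finset.sum_add_distrib, ← Finset.sum_sub_distrib]
    exact Finset.sum_congr rfl (fun u _ => by unfold LG; ring)
  have h5 : ∑ u, ∑ v ∈ G.neighborFinset u, LA (A.Emb G) (RT.Plant G (A.Emb G)) v u =
      ∑ u, ∑ v ∈ G.neighborFinset u, LA (A.Emb G) (RT.Plant G (A.Emb G)) u v := by
    apply Finset.sum_comm'
    intro u v
    simp [SimpleGraph.adj_comm]
  have h6 : ∑ u, sig G (A.Emb G) (RT.Plant G (A.Emb G)) (B.Emb G) u =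
      ∑ u, LU G (RT.Plant G (A.Emb G)) u + ∑ u, LG G (RT.Plant G (A.Emb G)) (B.Emb G) u +
      2 * ∑ u, ∑ v ∈ G.neighborFinset u, LA (A.Emb G) (RT.Plant G (A.Emb G)) u v := by
    unfold sig
    rw [Finset.sum_add_distrib, Finset.sum_add_distrib]
    have : ∑ u, ∑ v ∈ G.neighborFinset u, (LA (A.Emb G) (RT.Plant G (A.Emb G)) u v +
        LA (A.Emb G) (RT.Plant G (A.Emb G)) v u) =
        ∑ u, ∑ v ∈ G.neighborFinset u, LA (A.Emb G) (RT.Plant G (A.Emb G)) u v +
        ∑ u, ∑ v ∈ G.neighborFinset u, LA (A.Emb G) (RT.Plant G (A.Emb G)) v u := by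
      rw [← Finset.sum_add_distrib]
      exact Finset.sum_congr rfl (fun u _ => Finset.sum_add_distrib)
    rw [this, h5]
    ring
  have hqm : ∀ v S T, S ⊆ T → RT.Plant G (A.Emb G) v S → RT.Plant G (A.Emb G) v T :=
      RT.Plant_mono (A.Emb_mono G)
  have h7 : 0 ≤ ∑ u, LU G (RT.Plant G (A.Emb G)) u :=
    Finset.sum_nonneg (fun u _ => LU_nonneg G _ hqm u)
  have h8 : 0 ≤ ∑ u, LG G (RT.Plant G (A.Emb G)) (B.Emb G) u :=
    Finset.sum_nonneg (fun u _ => LG_nonneg G A B hno u)
  rw [h6]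
  rw [Finset.card_univ] at h1
  push_cast
  nlinarith

theorem sig_ge_LU {W : Type*} (A B : RT W) (hno : ∀ u, ¬ (RT.graft A B).Emb G u univ) (u : V) :
    LU G (RT.Plant G (A.Emb G)) u ≤ sig G (A.Emb G) (RT.Plant G (A.Emb G)) (B.Emb G) u := by
  unfold sig
  have h1 := LG_nonneg G A B hno u
  have h2 : 0 ≤ ∑ v ∈ G.neighborFinset u, (LA (A.Emb G) (RT.Plant G (A.Emb G)) u v +
      LA (A.Emb G) (RT.Plant G (A.Emb G)) v u) := by
    refine Finset.sum_nonneg (fun v hv => ?_)
    have hv' : G.Adj u v := by simpa using hv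
    have k1 := LA_nonneg (A.Emb G) (RT.Plant G (A.Emb G)) u v
      (fun S hS => plant_hyp G _ (A.Emb_mono G) u v S hv' hS)
    have k2 := LA_nonneg (A.Emb G) (RT.Plant G (A.Emb G)) v u
      (fun S hS => plant_hyp G _ (A.Emb_mono G) v u S hv'.symm hS)
    linarith
  linarith

theorem sig_ge_LG {W : Type*} (A B : RT W) (u : V) :
    LG G (RT.Plant G (A.Emb G)) (B.Emb G) u ≤
      sig G (A.Emb G) (RT.Plant G (A.Emb G)) (B.Emb G) u := by
  unfold sig
  have hqm : ∀ v S T, S ⊆ T → RT.Plant G (A.Emb G) v S → RT.Plant G (A.Emb G) v T :=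
      RT.Plant_mono (A.Emb_mono G)
  have h1 := LU_nonneg G _ hqm u
  have h2 : 0 ≤ ∑ v ∈ G.neighborFinset u, (LA (A.Emb G) (RT.Plant G (A.Emb G)) u v +
      LA (A.Emb G) (RT.Plant G (A.Emb G)) v u) := by
    refine Finset.sum_nonneg (fun v hv => ?_)
    have hv' : G.Adj u v := by simpa using hv
    have k1 := LA_nonneg (A.Emb G) (RT.Plant G (A.Emb G)) u v
      (fun S hS => plant_hyp G _ (A.Emb_mono G) u v S hv' hS)
    have k2 := LA_nonneg (A.Emb G) (RT.Plant G (A.Emb G)) v u
      (fun S hS => plant_hyp G _ (A.Emb_mono G) v u S hv'.symm hS)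
    linarith
  linarith

theorem sig_ge_LA {W : Type*} (A B : RT W) (hno : ∀ u, ¬ (RT.graft A B).Emb G u univ) (u v : V)
    (huv : G.Adj u v) :
    LA (A.Emb G) (RT.Plant G (A.Emb G)) u v + LA (A.Emb G) (RT.Plant G (A.Emb G)) v u ≤
      sig G (A.Emb G) (RT.Plant G (A.Emb G)) (B.Emb G) u := by
  unfold sig
  have hqm : ∀ v S T, S ⊆ T → RT.Plant G (A.Emb G) v S → RT.Plant G (A.Emb G) v T :=
      RT.Plant_mono (A.Emb_mono G)
  have h1 := LU_nonneg G _ hqm u
  have h3 := LG_nonneg G A B hno u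
  have h2 : LA (A.Emb G) (RT.Plant G (A.Emb G)) u v + LA (A.Emb G) (RT.Plant G (A.Emb G)) v u ≤
      ∑ v ∈ G.neighborFinset u, (LA (A.Emb G) (RT.Plant G (A.Emb G)) u v +
      LA (A.Emb G) (RT.Plant G (A.Emb G)) v u) := by
    refine Finset.single_le_sum (f := fun v => LA (A.Emb G) (RT.Plant G (A.Emb G)) u v +
      LA (A.Emb G) (RT.Plant G (A.Emb G)) v u) (fun v hv => ?_) (by simpa using huv)
    have hv' : G.Adj u v := by simpa using hv
    have k1 := LA_nonneg (A.Emb G) (RT.Plant G (A.Emb G)) u v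
      (fun S hS => plant_hyp G _ (A.Emb_mono G) u v S hv' hS)
    have k2 := LA_nonneg (A.Emb G) (RT.Plant G (A.Emb G)) v u
      (fun S hS => plant_hyp G _ (A.Emb_mono G) v u S hv'.symm hS)
    show 0 ≤ LA (A.Emb G) (RT.Plant G (A.Emb G)) u v + LA (A.Emb G) (RT.Plant G (A.Emb G)) v u
    linarith
  linarith

end slack

end Pool.Agent.H152.ESS
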