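import Pool.Agent.H152.ESS.Assemble

/-! The stability inequality. -/

set_option autoImplicit false

namespace Pool.Agent.H152.ESS

open Finset ES903

section sets

variable {V : Type*} [DecidableEq V] [Fintype V] {W : Type*}
variable (G : SimpleGraph V) [DecidableRel G.Adj]

open Classical in
noncomputable def sB (F : ℕ) : Finset V := univ.filter (fun v => F ≤ G.degree v)

open Classical in
noncomputable def sX (F F' : ℕ) : Finset V := univ.filter (fun u => G.degree u ≤ F ∧
  (∃ v, G.Adj u v ∧ G.degree v ≤ F) ∧ ∃ w, G.Adj u w ∧ F' ≤ G.degree w)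

open Classical in
noncomputable def sL1 (F F' : ℕ) : Finset V := univ.filter (fun u => G.degree u ≤ F ∧
  (∀ v, G.Adj u v → F < G.degree v) ∧ ∃ w, G.Adj u w ∧ F' ≤ G.degree w)

open Classical in
noncomputable def sN (F F' : ℕ) : Finset V := univ.filter (fun u => G.degree u ≤ F ∧
  (∀ w, G.Adj u w → G.degree w < F') ∧ ¬ Gd G u)

open Classical in
noncomputable def sK (k : ℕ) : Finset V := univ.filter (fun u => Gd G u ∧ G.degree u + 1 = k)

open Classical in
noncomputable def sQ (k : ℕ) : Finset V := univ.filter (fun u => Gd G u ∧ G.degree u + 1 < k)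

theorem sK_closed (k : ℕ) (u v : V) (huv : G.Adj u v) : u ∈ sK G k ↔ v ∈ sK G k := by
  classical
  simp only [sK, Finset.mem_filter, Finset.mem_univ, true_and]
  constructor
  · rintro ⟨h1, h2⟩
    exact ⟨Gd_adj G h1 huv, by rw [Gd_deg G h1 huv]; exact h2⟩
  · rintro ⟨h1, h2⟩
    exact ⟨Gd_adj G h1 huv.symm, by rw [Gd_deg G h1 huv.symm]; exact h2⟩

theorem sQ_closed (k : ℕ) (u v : V) (huv : G.Adj u v) : u ∈ sQ G k ↔ v ∈ sQ G k := by
  classical
  simp only [sQ, Finset.mem_filter, Finset.mem_univ, true_and]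
  constructor
  · rintro ⟨h1, h2⟩
    exact ⟨Gd_adj G h1 huv, by rw [Gd_deg G h1 huv]; exact h2⟩
  · rintro ⟨h1, h2⟩
    exact ⟨Gd_adj G h1 huv.symm, by rw [Gd_deg G h1 huv.symm]; exact h2⟩

theorem card_Q (t : RT W) (hno : ∀ u, ¬ t.Emb G u univ) :
    ((sQ G t.size).card : ℚ) ≤ ((t.size : ℚ) - 1) * Fintype.card V - ∑ u, (G.degree u : ℚ) := by
  classical
  have h1 := closed_bound G t (univ \ sQ G t.size) (by
    intro u v h
    have := sQ_closed G t.size u v h
    simp [this]) hno
  have h2 : ∑ u, (G.degree u : ℚ) = ∑ u ∈ univ \ sQ G t.size, (G.degree u : ℚ) +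
      ∑ u ∈ sQ G t.size, (G.degree u : ℚ) := (Finset.sum_sdiff (Finset.subset_univ _)).symm
  have h3 : ∑ u ∈ sQ G t.size, (G.degree u : ℚ) ≤ ∑ u ∈ sQ G t.size, ((t.size : ℚ) - 2) := by
    apply Finset.sum_le_sum
    intro u hu
    simp only [sQ, Finset.mem_filter, Finset.mem_univ, true_and] at hu
    have : ((G.degree u + 2 : ℕ) : ℚ) ≤ (t.size : ℚ) := by exact_mod_cast (by omega)
    push_cast at this
    linarith
  rw [Finset.sum_const, nsmul_eq_mul] at h3
  have h8 : ((univ \ sQ G t.size).card : ℚ) = (Fintype.card V : ℚ) - (sQ G t.size).card := by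
    rw [Finset.card_sdiff_of_subset (Finset.subset_univ _), Finset.card_univ,
      Nat.cast_sub (Finset.card_le_univ _)]
  rw [h8] at h1
  nlinarith

theorem card_B (t : RT W) (hno : ∀ u, ¬ t.Emb G u univ) (F : ℕ) (hF : t.size ≤ F) :
    (F : ℚ) * ((sB G F).card : ℚ) ≤ (t.size : ℚ) * ((univ \ sK G t.size).card : ℚ) := by
  classical
  have h1 := closed_bound G t (univ \ sK G t.size) (by
    intro u v h
    have := sK_closed G t.size u v h
    simp [this]) hno
  have h2 : (F : ℚ) * ((sB G F).card : ℚ) ≤ ∑ u ∈ sB G F, (G.degree u : ℚ) := by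
    rw [mul_comm, ← nsmul_eq_mul, ← Finset.sum_const]
    apply Finset.sum_le_sum
    intro u hu
    simp only [sB, Finset.mem_filter, Finset.mem_univ, true_and] at hu
    exact_mod_cast hu
  have h3 : ∑ u ∈ sB G F, (G.degree u : ℚ) ≤ ∑ u ∈ univ \ sK G t.size, (G.degree u : ℚ) := by
    apply Finset.sum_le_sum_of_subset_of_nonneg
    · intro u hu
      simp only [sB, Finset.mem_filter, Finset.mem_univ, true_and] at hu
      simp only [sK, Finset.mem_sdiff, Finset.mem_filter, Finset.mem_univ, true_and, not_and]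
      intro _
      omega
    · intro u _ _
      positivity
  have h4 : (0:ℚ) ≤ ((univ \ sK G t.size).card : ℚ) := by positivity
  nlinarith

theorem card_X (c : W) (l : List W) (B : RT W) (M F F' : ℕ)
    (hno : ∀ u, ¬ (RT.graft (starRT c l) B).Emb G u univ) (hl : 1 ≤ l.length)
    (hF' : F + l.length + 2 ≤ F') (hM : l.length + 1 + F ≤ M) :
    (sX G F F').card ≤ (Bd G c l B M).card + (sB G F').card * (F * F + F + 1) := by
  classical
  let P : V → Finset V := fun w => univ.filter (fun x => G.Adj w x ∧ G.degree x ≤ F ∧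
          ∃ y, G.Adj w y ∧ G.degree y ≤ F ∧ G.Adj x y)
  have h1 : sX G F F' ⊆ Bd G c l B M ∪
      (sB G F').biUnion (fun w => if (P w).card ≤ F * F + F + 1 then P w else ∅) := by
    intro u hu
    simp only [sX, Finset.mem_filter, Finset.mem_univ, true_and] at hu
    obtain ⟨hu1, ⟨v, huv, hv⟩, w, huw, hw⟩ := hu
    rw [Finset.mem_union, Finset.mem_biUnion]
    rcases X_cases G c l B M F F' hno hl hF' hM u v w huv huw hu1 hv hw with h | h
    · exact Or.inl h
    · refine Or.inr ⟨w, ?_, ?_⟩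
      · simp only [sB, Finset.mem_filter, Finset.mem_univ, true_and]
        exact hw
      · have h2 : u ∈ P w := by convert h.1
        have h3 : (P w).card ≤ F * F + F + 1 := by convert h.2
        rw [if_pos h3]
        exact h2
  refine (Finset.card_le_card h1).trans ((Finset.card_union_le _ _).trans ?_)
  apply Nat.add_le_add_left
  apply Finset.card_biUnion_le_card_mul
  intro w _
  split_ifs with h
  · exact h
  · simp

theorem card_N (c : W) (l : List W) (B : RT W) (M F F' : ℕ)
    (hno : ∀ u, ¬ (RT.graft (starRT c l) B).Emb G u univ) (hl : 1 ≤ l.length) (hB : 1 ≤ B.size)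
    (hM : l.length + 1 + F + F * F' ≤ M) :
    (sN G F F').card ≤ (Bd G c l B M).card + (Bd G c l B M).card * F' + (sX G F F').card * F := by
  classical
  have h1 : sN G F F' ⊆ (Bd G c l B M ∪
      ((Bd G c l B M).filter (fun w => G.degree w ≤ F')).biUnion (fun w => G.neighborFinset w)) ∪
      (sX G F F').biUnion (fun w => G.neighborFinset w) := by
    intro u hu
    simp only [sN, Finset.mem_filter, Finset.mem_univ, true_and] at hu
    obtain ⟨hu1, hu2, hu3⟩ := hu
    rw [Finset.mem_union, Finset.mem_union, Finset.mem_biUnion, Finset.mem_biUnion]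
    rcases L0_cases G c l B M F F' hno hl hB hM u hu1 hu2 with h | h | h | h
    · exact absurd h hu3
    · exact Or.inl (Or.inl h)
    · obtain ⟨w, h1, h2, h3⟩ := h
      refine Or.inl (Or.inr ⟨w, Finset.mem_filter.2 ⟨h2, h3.le⟩, ?_⟩)
      rw [SimpleGraph.mem_neighborFinset]; exact h1.symm
    · obtain ⟨w, h1, h2, h3, h4⟩ := h
      refine Or.inr ⟨w, ?_, ?_⟩
      · simp only [sX, Finset.mem_filter, Finset.mem_univ, true_and]
        exact ⟨h2, h3, h4⟩
      · rw [SimpleGraph.mem_neighborFinset]; exact h1.symm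
  refine (Finset.card_le_card h1).trans ((Finset.card_union_le _ _).trans ?_)
  apply Nat.add_le_add
  · refine (Finset.card_union_le _ _).trans ?_
    apply Nat.add_le_add_left
    refine le_trans (Finset.card_biUnion_le_card_mul _ _ F' ?_) ?_
    · intro w hw
      rw [SimpleGraph.card_neighborFinset_eq_degree]
      exact (Finset.mem_filter.1 hw).2
    · exact Nat.mul_le_mul_right _ (Finset.card_le_card (Finset.filter_subset _ _))
  · apply Finset.card_biUnion_le_card_mul
    intro w hw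
    simp only [sX, Finset.mem_filter, Finset.mem_univ, true_and] at hw
    rw [SimpleGraph.card_neighborFinset_eq_degree]
    exact hw.1

theorem cover (t : RT W) (hno : ∀ u, ¬ t.Emb G u univ) (F F' : ℕ) (v : V)
    (hv : v ∉ sK G t.size) :
    v ∈ sB G (F + 1) ∨ v ∈ sX G F F' ∨ v ∈ sL1 G F F' ∨ v ∈ sN G F F' ∨ v ∈ sQ G t.size := by
  classical
  by_cases h1 : F + 1 ≤ G.degree v
  · left; simp only [sB, Finset.mem_filter, Finset.mem_univ, true_and]; exact h1
  · right
    push Not at h1
    by_cases h2 : ∃ w, G.Adj v w ∧ F' ≤ G.degree w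
    · by_cases h3 : ∃ w, G.Adj v w ∧ G.degree w ≤ F
      · left
        simp only [sX, Finset.mem_filter, Finset.mem_univ, true_and]
        exact ⟨by omega, h3, h2⟩
      · right; left
        simp only [sL1, Finset.mem_filter, Finset.mem_univ, true_and]
        push Not at h3
        exact ⟨by omega, h3, h2⟩
    · right; right
      push Not at h2
      by_cases h4 : Gd G v
      · right
        have h5 := Gd_le G t hno h4
        simp only [sK, sQ, Finset.mem_filter, Finset.mem_univ, true_and] at hv ⊢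
        refine ⟨h4, ?_⟩
        by_contra h6
        exact hv ⟨h4, by omega⟩
      · left
        simp only [sN, Finset.mem_filter, Finset.mem_univ, true_and]
        exact ⟨by omega, h2, h4⟩

end sets

/-- the arithmetic of the final estimate -/
theorem arith (n'' n' B1 B2 X N Q Bd L k F F' F2 th C kp D : ℚ)
    (hn : n'' ≤ B1 + X + L + N + Q) (hB1 : F * B1 ≤ k * n') (hB2 : F' * B2 ≤ k * n')
    (hX : X ≤ Bd + B2 * F2) (hN : N ≤ Bd + Bd * F' + X * F) (hQ : Q ≤ D)
    (hBd : Bd * kp ≤ 2 * D) (hL : L ≤ D + 2 * k * B1)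
    (hF : (2 * k + 1) * k ≤ th * F) (hF' : (1 + F) * F2 * k ≤ th * F')
    (hFp : 0 < F) (hF'p : 0 < F') (hkp : 0 < kp) (hk : 0 ≤ k) (hF2 : 0 ≤ F2) (hn0 : 0 ≤ n')
    (hC : C = (2 + F + F') * (2 / kp) + 2) :
    n'' ≤ 2 * th * n' + C * D := by
  have e1 : (2 * k + 1) * B1 ≤ th * n' := by
    have h1 : ((2 * k + 1) * B1) * F ≤ (th * n') * F := by nlinarith
    exact le_of_mul_le_mul_right h1 hFp
  have e2 : (1 + F) * F2 * B2 ≤ th * n' := by
    have h0 : (0:ℚ) ≤ (1 + F) * F2 := by positivity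
    have h1 : ((1 + F) * F2 * B2) * F' ≤ (th * n') * F' := by
      have := mul_le_mul_of_nonneg_left hB2 h0
      have h2 := mul_le_mul_of_nonneg_right hF' hn0
      nlinarith
    exact le_of_mul_le_mul_right h1 hF'p
  have e3 : Bd ≤ (2 / kp) * D := by
    rw [div_mul_eq_mul_div, le_div_iff₀ hkp]
    exact hBd
  have e4 : X + X * F ≤ (1 + F) * Bd + (1 + F) * F2 * B2 := by
    have h0 : (0:ℚ) ≤ 1 + F := by positivity
    have := mul_le_mul_of_nonneg_left hX h0
    nlinarith
  have e5 : (2 + F + F') * Bd ≤ (2 + F + F') * ((2 / kp) * D) := by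
    apply mul_le_mul_of_nonneg_left e3
    positivity
  rw [hC]
  nlinarith

section lbound

variable {V : Type*} [DecidableEq V] [Fintype V] {W : Type*}
variable (G : SimpleGraph V) [DecidableRel G.Adj]

theorem L_disj (F F' : ℕ) (L : Finset V) (hL : L ⊆ sL1 G F F') :
    Disjoint L (sB G (F + 1)) ∧ ∀ u ∈ L, ∀ v, G.Adj u v → v ∈ sB G (F + 1) := by
  classical
  constructor
  · rw [Finset.disjoint_left]
    intro u hu hu2
    have h1 := hL hu
    simp only [sL1, sB, Finset.mem_filter, Finset.mem_univ, true_and] at h1 hu2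
    omega
  · intro u hu v huv
    have h1 := hL hu
    simp only [sL1, sB, Finset.mem_filter, Finset.mem_univ, true_and] at h1 ⊢
    exact h1.2.1 v huv

theorem L_unbal (t : RT W) (hno' : ∀ (G' : SimpleGraph V), G' ≤ G → ∀ u, ¬ t.Emb G' u univ)
    (F F' : ℕ) (hs : (side t).1 ≠ (side t).2) :
    ((sL1 G F F').card : ℚ) ≤
      (((t.size : ℚ) - 1) * Fintype.card V - ∑ u, (G.degree u : ℚ)) +
      2 * (t.size : ℚ) * ((sB G (F + 1)).card : ℚ) := by
  obtain ⟨hd, hnb⟩ := L_disj G F F' _ (Finset.Subset.refl _)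
  obtain ⟨b1, b2⟩ := bip G t hno' (sL1 G F F') (sB G (F + 1)) hd hnb
  have h1 := remove G t hno' (sL1 G F F')
  have h2 : ((side t).1 : ℚ) + (side t).2 = t.size + 1 := by exact_mod_cast side_sum t
  have h3 := side_pos t
  have h4 : (0:ℚ) ≤ ((sL1 G F F').card : ℚ) := by positivity
  have h5 : (0:ℚ) ≤ ((sB G (F + 1)).card : ℚ) := by positivity
  have h6 : (1:ℚ) ≤ ((side t).1 : ℚ) := by exact_mod_cast h3
  have h6b : (0:ℚ) ≤ ((side t).2 : ℚ) := by positivity
  rcases lt_or_gt_of_ne hs with h | h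
  · have h7 : ((side t).1 : ℚ) + 1 ≤ (side t).2 := by exact_mod_cast h
    nlinarith
  · have h7 : ((side t).2 : ℚ) + 1 ≤ (side t).1 := by exact_mod_cast h
    nlinarith

open Classical in
theorem L_bal (t : RT W) (hno' : ∀ (G' : SimpleGraph V), G' ≤ G → ∀ u, ¬ t.Emb G' u univ)
    (F F' : ℕ) (hs : (side t).1 = (side t).2) :
    (((sL1 G F F').filter (fun u => ¬ (2 * G.degree u + 1 = t.size))).card : ℚ) ≤
      (((t.size : ℚ) - 1) * Fintype.card V - ∑ u, (G.degree u : ℚ)) +
      2 * (t.size : ℚ) * ((sB G (F + 1)).card : ℚ) := by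
  have hsum := side_sum t
  have h3 := side_pos t
  obtain ⟨m, hm⟩ : ∃ m, (side t).1 = m + 1 := ⟨(side t).1 - 1, by omega⟩
  have hm2 : (side t).2 = m + 1 := by omega
  have hsz : t.size = 2 * m + 1 := by omega
  set L := sL1 G F F' with hLdef
  set L2 := L.filter (fun u => m + 1 ≤ G.degree u) with hL2
  set L3 := L.filter (fun u => G.degree u + 1 ≤ m) with hL3
  set Bs := sB G (F + 1) with hBs
  have hsub : L.filter (fun u => ¬ (2 * G.degree u + 1 = t.size)) ⊆ L2 ∪ L3 := by
    intro u hu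
    rw [Finset.mem_filter] at hu
    rw [Finset.mem_union, hL2, hL3, Finset.mem_filter, Finset.mem_filter]
    by_cases h : m + 1 ≤ G.degree u
    · exact Or.inl ⟨hu.1, h⟩
    · right
      refine ⟨hu.1, ?_⟩
      have := hu.2
      omega
  have hcard : (((L.filter (fun u => ¬ (2 * G.degree u + 1 = t.size))).card : ℕ) : ℚ) ≤
      (L2.card : ℚ) + L3.card := by
    exact_mod_cast (Finset.card_le_card hsub).trans (Finset.card_union_le _ _)
  obtain ⟨hd, hnb⟩ := L_disj G F F' L2 (Finset.filter_subset _ _)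
  obtain ⟨b1, _⟩ := bip G t hno' L2 Bs hd hnb
  have h1 := remove G t hno' L
  rw [hm, hm2] at b1
  push_cast at b1
  have c1 : ((m : ℚ) + 1) * L2.card ≤ ∑ u ∈ L2, (G.degree u : ℚ) := by
    rw [mul_comm, ← nsmul_eq_mul, ← Finset.sum_const]
    apply Finset.sum_le_sum
    intro u hu
    rw [hL2, Finset.mem_filter] at hu
    exact_mod_cast hu.2
  have c2 : ∑ u ∈ L \ L2, (G.degree u : ℚ) ≤ (m : ℚ) * ((L \ L2).card : ℚ) - L3.card := by
    have e1 : ∑ u ∈ L \ L2, (G.degree u : ℚ) ≤
        ∑ u ∈ L \ L2, ((m : ℚ) - (if u ∈ L3 then 1 else 0)) := by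
      apply Finset.sum_le_sum
      intro u hu
      rw [Finset.mem_sdiff, hL2, Finset.mem_filter, not_and] at hu
      have h5 := hu.2 hu.1
      split_ifs with h
      · rw [hL3, Finset.mem_filter] at h
        have : ((G.degree u + 1 : ℕ) : ℚ) ≤ (m : ℚ) := by exact_mod_cast h.2
        push_cast at this
        linarith
      · have : (G.degree u : ℚ) ≤ (m : ℚ) := by exact_mod_cast (by omega)
        linarith
    refine e1.trans (le_of_eq ?_)
    rw [Finset.sum_sub_distrib, Finset.sum_const, nsmul_eq_mul, mul_comm]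
    congr 1
    rw [Finset.sum_ite_mem, Finset.sum_const, nsmul_eq_mul, mul_one]
    congr 2
    ext u
    rw [Finset.mem_inter, Finset.mem_sdiff, hL2, hL3, Finset.mem_filter, Finset.mem_filter]
    constructor
    · rintro ⟨_, h⟩; exact h
    · rintro ⟨h5, h6⟩
      exact ⟨⟨h5, fun h7 => by have := h7.2; omega⟩, h5, h6⟩
  have c3 : ∑ u ∈ L, (G.degree u : ℚ) = ∑ u ∈ L \ L2, (G.degree u : ℚ) +
      ∑ u ∈ L2, (G.degree u : ℚ) := (Finset.sum_sdiff (Finset.filter_subset _ _)).symm
  have c4 : ((L \ L2).card : ℚ) = (L.card : ℚ) - L2.card := by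
    rw [Finset.card_sdiff_of_subset (Finset.filter_subset _ _),
      Nat.cast_sub (Finset.card_le_card (Finset.filter_subset _ _))]
  have hszq : (t.size : ℚ) = 2 * m + 1 := by rw [hsz]; push_cast; ring
  rw [c4] at c2
  rw [hszq] at h1 ⊢
  have h5 : (0:ℚ) ≤ (Bs.card : ℚ) := by positivity
  have h6 : (0:ℚ) ≤ (m : ℚ) := by positivity
  have h7 : (0:ℚ) ≤ (L3.card : ℚ) := by positivity
  have hno : ∀ u, ¬ t.Emb G u univ := hno' G le_rfl
  have hQ := card_Q G t hno
  have hQ0 : (0:ℚ) ≤ ((sQ G t.size).card : ℚ) := by positivity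
  rw [hszq] at hQ
  nlinarith

end lbound

end Pool.Agent.H152.ESS
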