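import Pool.Agent.H152.ESS.Stab

/-! Rooted representations of trees: an end star at the root. -/

set_option autoImplicit false

namespace Pool.Agent.H152.ESS

open Finset ES903

section rep

variable {W : Type*} [DecidableEq W]

/-- `t'` represents the same labelled tree as `t` -/
structure Rep (t t' : RT W) : Prop where
  verts : t'.verts = t.verts
  good : t.Good → t'.Good
  edge : ∀ a b, t.Edge a b → (t'.Edge a b ∨ t'.Edge b a)
  size : t'.size = t.size

theorem Rep.refl (t : RT W) : Rep t t := ⟨rfl, id, fun _ _ h => Or.inl h, rfl⟩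

theorem Rep.trans {t t' t'' : RT W} (h : Rep t t') (h' : Rep t' t'') : Rep t t'' := by
  refine ⟨h'.verts.trans h.verts, fun g => h'.good (h.good g), ?_, h'.size.trans h.size⟩
  intro a b hab
  rcases h.edge a b hab with h1 | h1
  · exact h'.edge a b h1
  · exact (h'.edge b a h1).symm

theorem Rep.swap (A B : RT W) : Rep (RT.graft A B) (RT.graft B A) := by
  refine ⟨?_, ?_, ?_, ?_⟩
  · simp only [RT.verts, Finset.union_comm]
  · rintro ⟨h1, h2, h3⟩; exact ⟨h2, h1, h3.symm⟩
  · rintro a b (h | h | ⟨h1, h2⟩)
    · exact Or.inl (Or.inr (Or.inl h))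
    · exact Or.inl (Or.inl h)
    · exact Or.inr (Or.inr (Or.inr ⟨h2, h1⟩))
  · simp only [RT.size]; omega

theorem Rep.comm (A A' B : RT W) :
    Rep (RT.graft A (RT.graft A' B)) (RT.graft A' (RT.graft A B)) := by
  refine ⟨?_, ?_, ?_, ?_⟩
  · simp only [RT.verts]; rw [Finset.union_left_comm]
  · rintro ⟨h1, ⟨h2, h3, h4⟩, h5⟩
    simp only [RT.verts, Finset.disjoint_union_right] at h5
    refine ⟨h2, ⟨h1, h3, h5.2⟩, ?_⟩
    simp only [RT.verts, Finset.disjoint_union_right]
    exact ⟨h5.1.symm, h4⟩
  · rintro a b (h | h | ⟨h1, h2⟩)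
    · exact Or.inl (Or.inr (Or.inl (Or.inl h)))
    · rcases h with h | h | ⟨h1, h2⟩
      · exact Or.inl (Or.inl h)
      · exact Or.inl (Or.inr (Or.inl (Or.inr (Or.inl h))))
      · exact Or.inl (Or.inr (Or.inr ⟨h1, h2⟩))
    · exact Or.inl (Or.inr (Or.inl (Or.inr (Or.inr ⟨h1, h2⟩))))
  · simp only [RT.size]; omega

theorem Rep.left {A A' : RT W} (h : Rep A A') (hr : A'.root = A.root) (B : RT W) :
    Rep (RT.graft A B) (RT.graft A' B) := by
  refine ⟨?_, ?_, ?_, ?_⟩
  · simp only [RT.verts, h.verts]
  · rintro ⟨h1, h2, h3⟩; exact ⟨h.good h1, h2, by rw [h.verts]; exact h3⟩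
  · rintro a b (h1 | h1 | ⟨h1, h2⟩)
    · rcases h.edge a b h1 with h2 | h2
      · exact Or.inl (Or.inl h2)
      · exact Or.inr (Or.inl h2)
    · exact Or.inl (Or.inr (Or.inl h1))
    · exact Or.inl (Or.inr (Or.inr ⟨h1, by rw [hr]; exact h2⟩))
  · simp only [RT.size, h.size]

theorem Rep.right {B B' : RT W} (h : Rep B B') (hr : B'.root = B.root) (A : RT W) :
    Rep (RT.graft A B) (RT.graft A B') := by
  refine ⟨?_, ?_, ?_, ?_⟩
  · simp only [RT.verts, h.verts]
  · rintro ⟨h1, h2, h3⟩; exact ⟨h1, h.good h2, by rw [h.verts]; exact h3⟩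
  · rintro a b (h1 | h1 | ⟨h1, h2⟩)
    · exact Or.inl (Or.inl h1)
    · rcases h.edge a b h1 with h2 | h2
      · exact Or.inl (Or.inr (Or.inl h2))
      · exact Or.inr (Or.inr (Or.inl h2))
    · exact Or.inl (Or.inr (Or.inr ⟨by rw [hr]; exact h1, h2⟩))
  · simp only [RT.size, h.size]

theorem size_zero {A : RT W} (h : ¬ 1 ≤ A.size) : A = RT.node A.root := by
  cases A with
  | node w => rfl
  | graft A B => simp only [RT.size] at h; omega

theorem star_or_split (A : RT W) : (∃ l, A = starRT A.root l) ∨
    ∃ A' A'', Rep A (RT.graft A' A'') ∧ (RT.graft A' A'').root = A.root ∧ 1 ≤ A'.size := by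
  induction A with
  | node w => exact Or.inl ⟨[], rfl⟩
  | graft A1 A2 _ ih =>
    by_cases h : 1 ≤ A1.size
    · exact Or.inr ⟨A1, A2, Rep.refl _, rfl, h⟩
    · have h1 := size_zero h
      rcases ih with ⟨l, hl⟩ | ⟨A', A'', h2, h3, h4⟩
      · left
        refine ⟨A1.root :: l, ?_⟩
        show RT.graft A1 A2 = RT.graft (RT.node A1.root) (starRT A2.root l)
        rw [← h1, ← hl]
      · right
        refine ⟨A', RT.graft A1 A'', ?_, ?_, h4⟩
        · exact (Rep.right h2 h3 A1).trans (Rep.comm A1 A' A'')
        · exact h3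

theorem shrink (n : ℕ) : ∀ (A B : RT W), A.size ≤ n → 1 ≤ A.size → 1 ≤ B.size →
    ∃ c l B', Rep (RT.graft A B) (RT.graft (starRT c l) B') ∧ 1 ≤ l.length ∧ 1 ≤ B'.size := by
  induction n with
  | zero => intro A B h1 h2 _; omega
  | succ n ih =>
    intro A B h1 h2 h3
    rcases star_or_split A with ⟨l, hl⟩ | ⟨A', A'', h4, h5, h6⟩
    · refine ⟨A.root, l, B, ?_, ?_, h3⟩
      · rw [← hl]; exact Rep.refl _
      · rw [hl, starRT_size] at h2; exact h2
    · have h7 := h4.size
      simp only [RT.size] at h7
      obtain ⟨c, l, B', h8, h9, h10⟩ := ih A' (RT.graft B A'') (by omega) h6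
        (by simp only [RT.size]; omega)
      refine ⟨c, l, B', ?_, h9, h10⟩
      exact (((Rep.left h4 h5 B).trans (Rep.swap _ _)).trans (Rep.comm B A' A'')).trans h8

theorem end_star (t : RT W) : (∃ c l, Rep t (starRT c l)) ∨
    ∃ c l B, Rep t (RT.graft (starRT c l) B) ∧ 1 ≤ l.length ∧ 1 ≤ B.size := by
  rcases star_or_split t with ⟨l, hl⟩ | ⟨A, B, h1, h2, h3⟩
  · left
    exact ⟨t.root, l, by rw [← hl]; exact Rep.refl _⟩
  · by_cases hB : 1 ≤ B.size
    · right
      obtain ⟨c, l, B', h4, h5, h6⟩ := shrink A.size A B le_rfl h3 hB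
      exact ⟨c, l, B', h1.trans h4, h5, h6⟩
    · have hB' := size_zero hB
      rcases star_or_split A with ⟨l, hl⟩ | ⟨A1, A2, k1, k2, k3⟩
      · left
        refine ⟨A.root, B.root :: l, ?_⟩
        have h4 : Rep t (RT.graft B A) := h1.trans (Rep.swap A B)
        have h5 : RT.graft B A = starRT A.root (B.root :: l) := by
          show RT.graft B A = RT.graft (RT.node B.root) (starRT A.root l)
          rw [← hB', ← hl]
        rw [← h5]
        exact h4
      · right
        obtain ⟨c, l, B', h4, h5, h6⟩ := shrink A1.size A1 (RT.graft B A2) le_rfl k3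
          (by simp only [RT.size]; omega)
        refine ⟨c, l, B', ?_, h5, h6⟩
        exact (((h1.trans (Rep.swap A B)).trans (Rep.right k1 k2 B)).trans
          (Rep.comm B A1 A2)).trans h4

theorem starRT_root (c : W) (l : List W) : (starRT c l).root = c := by
  induction l with
  | nil => rfl
  | cons a l ih => exact ih

theorem starRT_edge (c : W) (l : List W) (a b : W) (h : (starRT c l).Edge a b) : a = c := by
  induction l with
  | nil => exact h.elim
  | cons x l ih =>
    rcases h with h | h | ⟨h1, _⟩
    · exact h.elim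
    · exact ih h
    · rw [h1, starRT_root]

/-! ### colours -/

/-- colour: `true` on the side of the root -/
def col : RT W → W → Bool
  | RT.node _, _ => true
  | RT.graft A B, x => if x ∈ A.verts then !(col A x) else col B x

theorem col_root (t : RT W) (h : t.Good) : col t t.root = true := by
  induction t with
  | node w => rfl
  | graft A B _ ihB =>
    have h1 : B.root ∉ A.verts := fun h' =>
      (Finset.disjoint_left.1 h.2.2) h' (RT.extract_root_mem B)
    show (if B.root ∈ A.verts then !(col A B.root) else col B B.root) = true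
    rw [if_neg h1]
    exact ihB h.2.1

theorem col_edge (t : RT W) (h : t.Good) (a b : W) (hab : t.Edge a b) : col t a ≠ col t b := by
  induction t with
  | node w => exact hab.elim
  | graft A B ihA ihB =>
    rcases hab with h1 | h1 | ⟨h1, h2⟩
    · have := RT.extract_edge_mem A a b h1
      simp only [col, if_pos this.1, if_pos this.2]
      have := ihA h.1 h1
      simpa using this
    · have h2 := RT.extract_edge_mem B a b h1
      have ha : a ∉ A.verts := fun h' => (Finset.disjoint_left.1 h.2.2) h' h2.1
      have hb : b ∉ A.verts := fun h' => (Finset.disjoint_left.1 h.2.2) h' h2.2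
      simp only [col, if_neg ha, if_neg hb]
      exact ihB h.2.1 h1
    · have ha : a ∉ A.verts := fun h' => (Finset.disjoint_left.1 h.2.2) h'
        (h1 ▸ RT.extract_root_mem B)
      have hb : b ∈ A.verts := h2 ▸ RT.extract_root_mem A
      simp only [col, if_neg ha, if_pos hb]
      rw [h1, h2, col_root A h.1, col_root B h.2.1]
      simp

theorem col_card (t : RT W) (h : t.Good) :
    (t.verts.filter (fun x => col t x = true)).card = (side t).1 ∧
    (t.verts.filter (fun x => col t x = false)).card = (side t).2 := by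
  induction t with
  | node w => simp [col, side, RT.verts]
  | graft A B ihA ihB =>
    obtain ⟨a1, a2⟩ := ihA h.1
    obtain ⟨b1, b2⟩ := ihB h.2.1
    have hd := h.2.2
    have e1 : ∀ v : Bool, A.verts.filter (fun x => col (RT.graft A B) x = v) =
        A.verts.filter (fun x => col A x = !v) := by
      intro v
      apply Finset.filter_congr
      intro x hx
      simp only [col, if_pos hx]
      cases col A x <;> cases v <;> simp
    have e2 : ∀ v : Bool, B.verts.filter (fun x => col (RT.graft A B) x = v) =
        B.verts.filter (fun x => col B x = v) := by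
      intro v
      apply Finset.filter_congr
      intro x hx
      have : x ∉ A.verts := fun h' => (Finset.disjoint_left.1 hd) h' hx
      simp only [col, if_neg this]
    have e3 : ∀ v : Bool, ((RT.graft A B).verts.filter
        (fun x => col (RT.graft A B) x = v)).card =
        (A.verts.filter (fun x => col A x = !v)).card +
        (B.verts.filter (fun x => col B x = v)).card := by
      intro v
      show ((A.verts ∪ B.verts).filter (fun x => col (RT.graft A B) x = v)).card = _
      rw [Finset.filter_union, Finset.card_union_of_disjoint, e1, e2]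
      exact Finset.disjoint_filter_filter hd
    constructor
    · rw [e3 true]
      simp only [Bool.not_true, side, a2, b1]
      omega
    · rw [e3 false]
      simp only [Bool.not_false, side, a1, b2]
      omega

end rep

/-- a rooted representation of a tree which is not a star -/
theorem tree_rep {W : Type*} [Fintype W] [DecidableEq W] (T : SimpleGraph W) (hT : T.IsTree)
    (hcard : 2 ≤ Fintype.card W)
    (hns : ¬ ∃ c, ∀ x, x ≠ c → T.Adj c x) :
    ∃ (c : W) (l : List W) (B : RT W), (RT.graft (starRT c l) B).Good ∧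
      (RT.graft (starRT c l) B).verts = Finset.univ ∧
      (∀ a b, T.Adj a b → (RT.graft (starRT c l) B).Edge a b ∨
        (RT.graft (starRT c l) B).Edge b a) ∧
      (RT.graft (starRT c l) B).size + 1 = Fintype.card W ∧ 1 ≤ l.length ∧ 1 ≤ B.size := by
  obtain ⟨t, h1, h2, h3, h4⟩ := exists_RT T hT
  rcases end_star t with ⟨c, l, hr⟩ | ⟨c, l, B, hr, hl, hB⟩
  · exfalso
    apply hns
    refine ⟨c, fun x hx => ?_⟩
    have : Nontrivial W := Fintype.one_lt_card_iff_nontrivial.1 (by omega)
    obtain ⟨y, hy⟩ : ∃ y, T.Adj x y := by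
      have := hT.connected.preconnected.exists_adj_of_nontrivial x
      exact this
    have h5 : (starRT c l).Edge x y ∨ (starRT c l).Edge y x := by
      rcases h3 x y hy with h | h
      · exact hr.edge x y h
      · exact (hr.edge y x h).symm
    rcases h5 with h | h
    · exact absurd (starRT_edge c l x y h) hx
    · have := starRT_edge c l y x h
      subst this
      exact hy.symm
  · refine ⟨c, l, B, hr.good h1, hr.verts.trans h2, ?_, by rw [hr.size]; exact h4, hl, hB⟩
    intro a b hab
    rcases h3 a b hab with h | h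
    · exact hr.edge a b h
    · exact (hr.edge b a h).symm

/-- unequal colour classes -/
theorem side_ne {W : Type*} [Fintype W] [DecidableEq W] (T : SimpleGraph W) (t : RT W)
    (h1 : t.Good) (h2 : t.verts = Finset.univ) (h3 : ∀ a b, T.Adj a b → t.Edge a b ∨ t.Edge b a)
    (hun : ∀ f : W → Bool, (∀ a b, T.Adj a b → f a ≠ f b) →
      (univ.filter (fun x => f x = true)).card ≠ (univ.filter (fun x => f x = false)).card) :
    (side t).1 ≠ (side t).2 := by
  have h4 := col_card t h1
  rw [h2] at h4
  rw [← h4.1, ← h4.2]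
  apply hun
  intro a b hab
  rcases h3 a b hab with h | h
  · exact col_edge t h1 a b h
  · exact (col_edge t h1 b a h).symm

/-- a graph without a copy of the tree -/
theorem free_no {V W : Type*} [DecidableEq V] [Fintype V] [Fintype W] [DecidableEq W]
    (T : SimpleGraph W) (t : RT W)
    (h1 : t.Good) (h2 : t.verts = Finset.univ) (h3 : ∀ a b, T.Adj a b → t.Edge a b ∨ t.Edge b a)
    (G : SimpleGraph V) (hG : T.Free G) :
    ∀ (G' : SimpleGraph V), G' ≤ G → ∀ u, ¬ t.Emb G' u univ := by
  intro G' hle u hu
  obtain ⟨f, -, -, hinj, hedge⟩ := RT.extract G' t h1 u univ hu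
  rw [h2, Finset.coe_univ, Set.injOn_univ] at hinj
  apply hG
  refine ⟨⟨⟨f, ?_⟩, hinj⟩⟩
  intro a b hab
  apply hle
  rcases h3 a b hab with h | h
  · exact hedge a b h
  · exact (hedge b a h).symm

end Pool.Agent.H152.ESS
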